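import Mathlib

/-!
# Hyperelementary subgroups of odd index
-/

set_option autoImplicit false
set_option linter.unusedSectionVars false

namespace Pool.Agent.K9h67.EV

/-- finite groups with a normal subgroup `E` of exponent `2` such that no element `≠ 1` of odd order commutes with all
elements of `E`, and with two independent characters of order two -/
def Good (G : Type) [Group G] : Prop :=
  ∃ (E : Subgroup G) (χ₁ χ₂ : G →* ℤˣ), E.Normal ∧ (∀ e ∈ E, e * e = 1) ∧
    (∀ g : G, Odd (orderOf g) → (∀ e ∈ E, e * g = g * e) → g = 1) ∧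
    (∃ g, χ₁ g = -1) ∧ (∃ g, χ₂ g = -1) ∧ ∃ g, χ₁ g * χ₂ g = -1

section

variable {G : Type} [Group G] [Finite G]

lemma le_of_odd {E : Subgroup G} (hE : E.Normal) (h2 : ∀ e ∈ E, e * e = 1) {U : Subgroup G}
    (hU : Odd U.index) : E ≤ U := by
  have h3 : IsPGroup 2 E := by
    intro e
    refine ⟨1, ?_⟩
    rw [pow_one, pow_two]
    exact Subtype.ext (h2 e e.2)
  have h4 : ¬ 2 ∣ Nat.card (G ⧸ U) := by
    rw [← Subgroup.index_eq_card]
    intro h
    exact (Nat.not_even_iff_odd.mpr hU) (even_iff_two_dvd.mpr h)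
  obtain ⟨x, hx⟩ := h3.nonempty_fixed_point_of_prime_not_dvd_card (G ⧸ U) h4
  obtain ⟨g, rfl⟩ := QuotientGroup.mk_surjective x
  intro e he
  have h5 : g * e * g⁻¹ ∈ E := hE.conj_mem e he g
  have h6 := hx ⟨g * e * g⁻¹, h5⟩
  change ((g * e * g⁻¹ * g : G) : G ⧸ U) = (g : G ⧸ U) at h6
  rw [QuotientGroup.eq] at h6
  have h7 : (g * e * g⁻¹ * g)⁻¹ * g = e⁻¹ := by group
  rw [h7] at h6
  exact U.inv_mem_iff.mp h6

lemma involution_unique {c e e' : G} (he : e ∈ Subgroup.zpowers c) (he' : e' ∈ Subgroup.zpowers c)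
    (h : e * e = 1) (h' : e' * e' = 1) (h1 : e ≠ 1) (h1' : e' ≠ 1) : e = e' := by
  classical
  by_contra hne
  have : Fintype (Subgroup.zpowers c) := Fintype.ofFinite _
  have h2 := IsCyclic.card_pow_eq_one_le (α := Subgroup.zpowers c) (n := 2) two_pos
  have h3 : ({1, ⟨e, he⟩, ⟨e', he'⟩} : Finset (Subgroup.zpowers c)) ⊆
      Finset.univ.filter (fun a : Subgroup.zpowers c => a ^ 2 = 1) := by
    intro a ha
    rw [Finset.mem_filter]
    refine ⟨Finset.mem_univ _, ?_⟩
    simp only [Finset.mem_insert, Finset.mem_singleton] at ha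
    rcases ha with rfl | rfl | rfl
    · simp
    · rw [pow_two]
      exact Subtype.ext h
    · rw [pow_two]
      exact Subtype.ext h'
  have h4 : ({1, ⟨e, he⟩, ⟨e', he'⟩} : Finset (Subgroup.zpowers c)).card = 3 := by
    rw [Finset.card_insert_of_notMem, Finset.card_insert_of_notMem, Finset.card_singleton]
    · rw [Finset.mem_singleton, Subtype.mk.injEq]
      exact hne
    · rw [Finset.mem_insert, Finset.mem_singleton, not_or]
      exact ⟨fun h => h1 (congrArg Subtype.val h).symm, fun h => h1' (congrArg Subtype.val h).symm⟩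
  have h5 := Finset.card_le_card h3
  omega

lemma le_of_odd_rel {E U V : Subgroup G} (hE : E.Normal) (h2 : ∀ e ∈ E, e * e = 1) (hEV : E ≤ V)
    (hU : Odd (U.relIndex V)) : E ≤ U := by
  have h3 : (E.subgroupOf V) ≤ U.subgroupOf V := by
    refine le_of_odd (E := E.subgroupOf V) inferInstance (fun e he => ?_) hU
    exact Subtype.ext (h2 _ (Subgroup.mem_subgroupOf.mp he))
  intro e he
  exact Subgroup.mem_subgroupOf.mp (h3 (Subgroup.mem_subgroupOf.mpr he : (⟨e, hEV he⟩ : V) ∈ _))

/-- hyperelementary subgroups which contain `E` are 2-groups -/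
lemma isPGroup_of_hyper {E : Subgroup G} (hE : E.Normal) (h2 : ∀ e ∈ E, e * e = 1)
    (hc : ∀ g : G, Odd (orderOf g) → (∀ e ∈ E, e * g = g * e) → g = 1) {U : Subgroup G}
    (hEU : E ≤ U) {p : ℕ} (hp : p.Prime) {c : U} (hcp : (orderOf c).Coprime p)
    (hn : ∀ u : U, u * c * u⁻¹ ∈ Subgroup.zpowers c)
    (hq : ∀ u : U, ∃ k : ℕ, u ^ (p ^ k) ∈ Subgroup.zpowers c) : IsPGroup 2 U := by
  have hc' : ∀ g : U, Odd (orderOf g) → (∀ e : U, (e : G) ∈ E → e * g = g * e) → g = 1 := by
    intro g hg h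
    have h3 := hc (g : G) (by rwa [Subgroup.orderOf_coe]) (fun e he => by
      have := congrArg Subtype.val (h ⟨e, hEU he⟩ he)
      exact this)
    exact Subtype.ext h3
  rcases Nat.Prime.eq_two_or_odd' hp with rfl | hodd
  · -- `p = 2`
    have hc1 : c = 1 := by
      have hoc : Odd (orderOf c) := Nat.Coprime.odd_of_right hcp
      refine hc' c hoc fun e he => ?_
      have h3 : e * c * e⁻¹ * c⁻¹ ∈ Subgroup.zpowers c :=
        mul_mem (hn e) (inv_mem (Subgroup.mem_zpowers c))
      have h4 : ((e * c * e⁻¹ * c⁻¹ : U) : G) ∈ E := by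
        have h5 : ((e * c * e⁻¹ * c⁻¹ : U) : G) = (e : G) * ((c : G) * (e : G)⁻¹ * (c : G)⁻¹) := by
          simp only [Subgroup.coe_mul, InvMemClass.coe_inv, mul_assoc]
        rw [h5]
        exact mul_mem he (hE.conj_mem _ (inv_mem he) _)
      have h5 : e * c * e⁻¹ * c⁻¹ = 1 := by
        have h6 : orderOf (e * c * e⁻¹ * c⁻¹) ∣ orderOf c := orderOf_dvd_of_mem_zpowers h3
        have h7 : orderOf (e * c * e⁻¹ * c⁻¹) ∣ 2 := by
          apply orderOf_dvd_of_pow_eq_one
          rw [pow_two]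
          exact Subtype.ext (h2 _ h4)
        have h8 : orderOf (e * c * e⁻¹ * c⁻¹) ∣ 1 := by
          have h9 : (orderOf c).Coprime 2 := hcp
          rw [← h9]
          exact Nat.dvd_gcd h6 h7
        exact orderOf_eq_one_iff.mp (Nat.dvd_one.mp h8)
      have h6 : e * c * e⁻¹ = c := by
        rwa [mul_inv_eq_one] at h5
      rw [mul_inv_eq_iff_eq_mul] at h6
      exact h6
    intro u
    obtain ⟨k, hk⟩ := hq u
    rw [hc1, Subgroup.zpowers_one_eq_bot, Subgroup.mem_bot] at hk
    exact ⟨k, hk⟩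
  · -- `p` odd
    have hEc : ∀ e : U, (e : G) ∈ E → e ∈ Subgroup.zpowers c := by
      intro e he
      obtain ⟨k, hk⟩ := hq e
      obtain ⟨j, hj⟩ := hodd.pow (n := k)
      have h3 : e * e = 1 := Subtype.ext (h2 _ he)
      rwa [hj, pow_add, pow_mul, pow_two, h3, one_pow, one_mul, pow_one] at hk
    -- the order of `c`
    have hco : ∃ a : ℕ, c ^ 2 ^ a = 1 := by
      obtain ⟨a, n, hn2, han⟩ := Nat.exists_eq_two_pow_mul_odd (orderOf_pos c).ne'
      refine ⟨a, ?_⟩
      refine hc' _ ?_ fun e he => ?_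
      · rw [orderOf_pow, han, Nat.gcd_eq_right (dvd_mul_right _ _),
          Nat.mul_div_cancel_left _ (pow_pos two_pos a)]
        exact hn2
      · obtain ⟨k, hk⟩ := Subgroup.mem_zpowers_iff.mp (hEc e he)
        rw [← hk]
        exact ((Commute.refl c).zpow_left k).pow_right _
    obtain ⟨a, ha⟩ := hco
    intro u
    obtain ⟨k, hk⟩ := hq u
    refine ⟨a, ?_⟩
    refine hc' _ ?_ fun e he => ?_
    · have h3 : orderOf (u ^ 2 ^ a) ∣ p ^ k := by
        apply orderOf_dvd_of_pow_eq_one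
        obtain ⟨j, hj⟩ := Subgroup.mem_zpowers_iff.mp hk
        rw [← pow_mul, mul_comm, pow_mul, ← hj, ← zpow_natCast, zpow_comm, zpow_natCast, ha,
          one_zpow]
      exact Odd.of_dvd_nat hodd.pow h3
    · -- `e` is the only involution
      by_cases he1 : e = 1
      · rw [he1, one_mul, mul_one]
      have h3 : ((u ^ 2 ^ a * e * (u ^ 2 ^ a)⁻¹ : U) : G) ∈ E := by
        simp only [Subgroup.coe_mul, InvMemClass.coe_inv]
        exact hE.conj_mem _ he _
      have h4 : u ^ 2 ^ a * e * (u ^ 2 ^ a)⁻¹ = e := by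
        refine involution_unique (hEc _ h3) (hEc _ he) (Subtype.ext (h2 _ h3))
          (Subtype.ext (h2 _ he)) ?_ he1
        intro h5
        apply he1
        rw [mul_inv_eq_one] at h5
        exact mul_eq_left.mp h5
      rw [mul_inv_eq_iff_eq_mul] at h4
      exact h4.symm

end

end Pool.Agent.K9h67.EV
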