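import Mathlib
import Pool.Agent.K9h41.DC.Gp
import Pool.Agent.K9h67.EV.GrpA

/-!
# Permutation characters of subgroups of even index
-/

set_option autoImplicit false
set_option linter.unusedSectionVars false

open Pool.Agent.R389 Pool.Agent.K4H74.SC Pool.Agent.K9h41.DC

namespace Pool.Agent.K9h67.EV

section

variable {G : Type} [Group G] [Finite G]

/-- integral combinations of the permutation characters of the subgroups of even index -/
def Ev (G : Type) [Group G] [Finite G] : AddSubgroup (G → ℂ) where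
  carrier := {f | ∃ c : Subgroup G → ℤ, (∀ U, c U ≠ 0 → Even U.index) ∧
    ∀ g : G, ∑ᶠ U, (c U : ℂ) * ind U (fun _ => (1 : ℂ)) g = f g}
  zero_mem' := ⟨0, fun U h => absurd rfl h, fun g => by simp⟩
  add_mem' := by
    rintro a b ⟨c, hc, h⟩ ⟨c', hc', h'⟩
    refine ⟨c + c', fun U hU => ?_, fun g => ?_⟩
    · by_cases h0 : c U = 0
      · exact hc' U (by intro h1; apply hU; simp [h0, h1])
      · exact hc U h0
    · rw [Pi.add_apply, ← h g, ← h' g, ← finsum_add_distrib (Set.toFinite _) (Set.toFinite _)]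
      refine finsum_congr fun U => ?_
      simp only [Pi.add_apply]
      push_cast
      ring
  neg_mem' := by
    rintro a ⟨c, hc, h⟩
    refine ⟨-c, fun U hU => hc U (by intro h0; apply hU; simp [h0]), fun g => ?_⟩
    rw [Pi.neg_apply, ← h g, ← finsum_neg_distrib]
    refine finsum_congr fun U => ?_
    simp

lemma ind_mem_Ev {U : Subgroup G} (hU : Even U.index) : ind U (fun _ => (1 : ℂ)) ∈ Ev G := by
  classical
  refine ⟨Pi.single U 1, fun W hW => ?_, fun g => ?_⟩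
  · by_cases h2 : W = U
    · subst h2
      exact hU
    · exact absurd (Pi.single_eq_of_ne h2 _) hW
  · rw [finsum_eq_single _ U]
    · rw [Pi.single_eq_same, Int.cast_one, one_mul]
    · intro W hW
      rw [Pi.single_eq_of_ne hW, Int.cast_zero, zero_mul]

lemma ind_one_one (U : Subgroup G) : ind U (fun _ => (1 : ℂ)) 1 = U.index := by
  rw [ind_one, fx]
  simp only [one_smul]
  congr 1
  rw [Subgroup.index_eq_card]
  exact Nat.card_congr (Equiv.subtypeUnivEquiv fun _ => trivial)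

lemma even_of_mem_Ev {f : G → ℂ} (hf : f ∈ Ev G) : ∃ n : ℤ, f 1 = 2 * n := by
  classical
  have : Fintype (Subgroup G) := Fintype.ofFinite _
  obtain ⟨c, hc, h⟩ := hf
  have h1 : ∀ U : Subgroup G, ∃ j : ℤ, (c U : ℂ) * ind U (fun _ => (1 : ℂ)) 1 = 2 * j := by
    intro U
    by_cases h0 : c U = 0
    · exact ⟨0, by simp [h0]⟩
    · obtain ⟨r, hr⟩ := hc U h0
      refine ⟨c U * r, ?_⟩
      rw [ind_one_one, hr]
      push_cast
      ring
  choose j hj using h1
  refine ⟨∑ U, j U, ?_⟩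
  rw [← h 1, finsum_eq_sum_of_fintype, Finset.sum_congr rfl (fun U _ => hj U)]
  push_cast
  rw [Finset.mul_sum]

lemma ind_top' : ind (⊤ : Subgroup G) (fun _ => (1 : ℂ)) = fun _ => 1 := by
  funext g
  rw [ind_one, fx]
  have h1 : Subsingleton (G ⧸ (⊤ : Subgroup G)) := QuotientGroup.subsingleton_quotient_top
  have h2 : ∀ x : G ⧸ (⊤ : Subgroup G), g • x = x := fun x => Subsingleton.elim _ _
  have h3 : Nat.card {x : G ⧸ (⊤ : Subgroup G) // g • x = x} = 1 := by
    rw [Nat.card_congr (Equiv.subtypeUnivEquiv h2), ← Subgroup.index_eq_card, Subgroup.index_top]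
  rw [h3, Nat.cast_one]

/-- the part of the relation of a group with two independent characters of order two -/
lemma relindex_ker {P : Subgroup G} (χ : G →* ℤˣ) (h : ∃ g ∈ P, χ g = -1) :
    2 * Nat.card (P ⊓ χ.ker : Subgroup G) = Nat.card P := by
  classical
  let ψ : P →* ℤˣ := χ.comp P.subtype
  have h1 : ψ.range = ⊤ := by
    rw [eq_top_iff]
    intro u _
    rcases Int.units_eq_one_or u with rfl | rfl
    · exact ⟨1, map_one _⟩
    · obtain ⟨g, hg, hg'⟩ := h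
      exact ⟨⟨g, hg⟩, hg'⟩
  have h2 : ψ.ker.index = 2 := by
    rw [Subgroup.index_ker, h1]
    simp
  have h3 := Subgroup.card_mul_index ψ.ker
  have h4 : Nat.card ψ.ker = Nat.card (P ⊓ χ.ker : Subgroup G) := by
    refine Nat.card_congr ⟨fun x => ⟨((x : P) : G), x.1.2, x.2⟩,
      fun x => ⟨⟨x, x.2.1⟩, x.2.2⟩, fun x => rfl, fun x => rfl⟩
  rw [h2, h4] at h3
  omega

open Classical in
lemma ext_one (U : Subgroup G) (y : G) :
    ext U (fun _ => (1 : ℂ)) y = if y ∈ U then 1 else 0 := by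
  by_cases h : y ∈ U
  · rw [ext_mem _ _ h, if_pos h]
  · rw [ext_not _ _ h, if_neg h]

/-- the biquadratic relation -/
lemma biq {P : Subgroup G} {χ₁ χ₂ : G →* ℤˣ} (h1 : ∃ g ∈ P, χ₁ g = -1)
    (h2 : ∃ g ∈ P, χ₂ g = -1) (h3 : ∃ g ∈ P, χ₁ g * χ₂ g = -1) (g : G) :
    2 * ind P (fun _ => (1 : ℂ)) g = ind (P ⊓ χ₁.ker) (fun _ => (1 : ℂ)) g
      + ind (P ⊓ χ₂.ker) (fun _ => (1 : ℂ)) g + ind (P ⊓ (χ₁ * χ₂).ker) (fun _ => (1 : ℂ)) g
      - ind (P ⊓ (χ₁.ker ⊓ χ₂.ker)) (fun _ => (1 : ℂ)) g := by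
  classical
  have : Fintype G := Fintype.ofFinite G
  have c1 := relindex_ker χ₁ h1
  have c2 := relindex_ker χ₂ h2
  have c3 := relindex_ker (χ₁ * χ₂) h3
  -- pointwise
  have hp : ∀ y : G, (if y ∈ P then (1 : ℂ) else 0) = (if y ∈ P ⊓ χ₁.ker then 1 else 0)
      + (if y ∈ P ⊓ χ₂.ker then 1 else 0) + (if y ∈ P ⊓ (χ₁ * χ₂).ker then 1 else 0)
      - 2 * (if y ∈ P ⊓ (χ₁.ker ⊓ χ₂.ker) then 1 else 0) := by
    intro y
    by_cases hy : y ∈ P
    · simp only [Subgroup.mem_inf, hy, true_and, MonoidHom.mem_ker, MonoidHom.mul_apply, if_true]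
      rcases Int.units_eq_one_or (χ₁ y) with ha | ha <;>
        rcases Int.units_eq_one_or (χ₂ y) with hb | hb <;> simp [ha, hb] <;> norm_num
    · simp only [Subgroup.mem_inf, hy, false_and, if_false]
      norm_num
  have hcard : ∀ U : Subgroup G, ∑ y : G, (if y ∈ U then (1 : ℂ) else 0) = Nat.card U := by
    intro U
    rw [Finset.sum_boole, Nat.card_eq_fintype_card, Fintype.card_subtype]
  have c4 : 4 * (Nat.card (P ⊓ (χ₁.ker ⊓ χ₂.ker) : Subgroup G) : ℂ) = Nat.card P := by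
    have h4 : (Nat.card P : ℂ) = Nat.card (P ⊓ χ₁.ker : Subgroup G)
        + Nat.card (P ⊓ χ₂.ker : Subgroup G) + Nat.card (P ⊓ (χ₁ * χ₂).ker : Subgroup G)
        - 2 * Nat.card (P ⊓ (χ₁.ker ⊓ χ₂.ker) : Subgroup G) := by
      rw [← hcard P, ← hcard, ← hcard, ← hcard, ← hcard, Finset.mul_sum,
        ← Finset.sum_add_distrib, ← Finset.sum_add_distrib, ← Finset.sum_sub_distrib]
      exact Finset.sum_congr rfl fun y _ => hp y
    have d1 : (2 : ℂ) * Nat.card (P ⊓ χ₁.ker : Subgroup G) = Nat.card P := by exact_mod_cast c1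
    have d2 : (2 : ℂ) * Nat.card (P ⊓ χ₂.ker : Subgroup G) = Nat.card P := by exact_mod_cast c2
    have d3 : (2 : ℂ) * Nat.card (P ⊓ (χ₁ * χ₂).ker : Subgroup G) = Nat.card P := by
      exact_mod_cast c3
    linear_combination 2 * h4 + d1 + d2 + d3
  have d1 : (Nat.card (P ⊓ χ₁.ker : Subgroup G) : ℂ) = Nat.card P / 2 := by
    rw [← c1]
    push_cast
    ring
  have d2 : (Nat.card (P ⊓ χ₂.ker : Subgroup G) : ℂ) = Nat.card P / 2 := by
    rw [← c2]
    push_cast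
    ring
  have d3 : (Nat.card (P ⊓ (χ₁ * χ₂).ker : Subgroup G) : ℂ) = Nat.card P / 2 := by
    rw [← c3]
    push_cast
    ring
  have d4 : (Nat.card (P ⊓ (χ₁.ker ⊓ χ₂.ker) : Subgroup G) : ℂ) = Nat.card P / 4 := by
    rw [← c4]
    ring
  have hP0 : (Nat.card P : ℂ) ≠ 0 := by exact_mod_cast Nat.card_pos.ne'
  have h5 : ∑ x : G, ext P (fun _ => (1 : ℂ)) (x⁻¹ * g * x)
      = ∑ x : G, ext (P ⊓ χ₁.ker) (fun _ => (1 : ℂ)) (x⁻¹ * g * x)
      + ∑ x : G, ext (P ⊓ χ₂.ker) (fun _ => (1 : ℂ)) (x⁻¹ * g * x)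
      + ∑ x : G, ext (P ⊓ (χ₁ * χ₂).ker) (fun _ => (1 : ℂ)) (x⁻¹ * g * x)
      - 2 * ∑ x : G, ext (P ⊓ (χ₁.ker ⊓ χ₂.ker)) (fun _ => (1 : ℂ)) (x⁻¹ * g * x) := by
    rw [Finset.mul_sum, ← Finset.sum_add_distrib, ← Finset.sum_add_distrib,
      ← Finset.sum_sub_distrib]
    refine Finset.sum_congr rfl fun x _ => ?_
    rw [ext_one, ext_one, ext_one, ext_one, ext_one]
    exact hp _
  rw [ind_eq, ind_eq, ind_eq, ind_eq, ind_eq, d1, d2, d3, d4, h5]
  field_simp
  ring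

lemma even_index_of_lt {P A : Subgroup G} (h : 2 * Nat.card A = Nat.card P) (hA : A ≤ P) :
    Even A.index := by
  have h1 := Subgroup.card_mul_index A
  have h2 := Subgroup.card_mul_index P
  have h3 : Nat.card A * A.index = Nat.card A * (2 * P.index) := by
    rw [h1, ← h2, ← h]
    ring
  rw [Nat.eq_of_mul_eq_mul_left Nat.card_pos h3]
  exact even_two_mul _

lemma biq_mem {P : Subgroup G} {χ₁ χ₂ : G →* ℤˣ} (h1 : ∃ g ∈ P, χ₁ g = -1)
    (h2 : ∃ g ∈ P, χ₂ g = -1) (h3 : ∃ g ∈ P, χ₁ g * χ₂ g = -1) :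
    (fun g => 2 * ind P (fun _ => (1 : ℂ)) g) ∈ Ev G := by
  have e1 := even_index_of_lt (relindex_ker χ₁ h1) inf_le_left
  have e2 := even_index_of_lt (relindex_ker χ₂ h2) inf_le_left
  have e3 := even_index_of_lt (relindex_ker (χ₁ * χ₂) h3) inf_le_left
  have e4 : Even (P ⊓ (χ₁.ker ⊓ χ₂.ker) : Subgroup G).index := by
    have h4 : (P ⊓ (χ₁.ker ⊓ χ₂.ker) : Subgroup G) ≤ P ⊓ χ₁.ker :=
      inf_le_inf_left _ inf_le_left
    exact e1.trans_dvd (Subgroup.index_dvd_of_le h4)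
  have h4 := (Ev G).sub_mem ((Ev G).add_mem ((Ev G).add_mem (ind_mem_Ev e1) (ind_mem_Ev e2))
    (ind_mem_Ev e3)) (ind_mem_Ev e4)
  convert h4 using 1
  funext g
  exact biq h1 h2 h3 g

/-- a subgroup of odd index is not in the kernel of a nontrivial quadratic character -/
lemma exists_neg_of_odd {P : Subgroup G} (hP : Odd P.index) {χ : G →* ℤˣ} (h : ∃ g, χ g = -1) :
    ∃ g ∈ P, χ g = -1 := by
  by_contra hc
  push Not at hc
  have h1 : P ≤ χ.ker := by
    intro g hg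
    rcases Int.units_eq_one_or (χ g) with h2 | h2
    · exact h2
    · exact absurd h2 (hc g hg)
  have h2 := relindex_ker (P := ⊤) χ (by
    obtain ⟨g, hg⟩ := h
    exact ⟨g, Subgroup.mem_top _, hg⟩)
  have h3 := even_index_of_lt h2 inf_le_left
  rw [top_inf_eq] at h3
  have h4 := h3.trans_dvd (Subgroup.index_dvd_of_le h1)
  exact (Nat.not_even_iff_odd.mpr hP) h4

end

end Pool.Agent.K9h67.EV
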