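import Mathlib
import Pool.Agent.K9h41.DC.Mt
import Pool.Agent.K9h67.EV.GrpB

/-!
# Functions of number fields which respect the relations between permutation characters
-/

set_option autoImplicit false
set_option linter.unusedSectionVars false

open NumberField NumberField.InfinitePlace IntermediateField
  Pool.Agent.R389 Pool.Agent.K4H74.ST Pool.Agent.K4H74.SC Pool.Agent.K9h41.DC

namespace Pool.Agent.K9h67.EV

/-- functions of number fields which respect the relations between permutation characters -/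
structure ArtinFn (A : Type) [CommGroup A] where
  /-- the value -/
  v : (k : Type) → [Field k] → [NumberField k] → A
  iso : ∀ (k k' : Type) [Field k] [NumberField k] [Field k'] [NumberField k'],
    k ≃+* k' → v k = v k'
  rel : ∀ (K : Type) [Field K] [NumberField K] [IsGalois ℚ K] [Fintype (Subgroup (K ≃ₐ[ℚ] K))]
    (V : Subgroup (K ≃ₐ[ℚ] K)) (c : Subgroup (K ≃ₐ[ℚ] K) → ℤ),
    (∀ g : K ≃ₐ[ℚ] K, ∑ U, (c U : ℂ) * ind U (fun _ => (1 : ℂ)) g
      = ind V (fun _ => (1 : ℂ)) g) → ∏ U, v (fixedField U) ^ c U = v (fixedField V)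

section fixed

variable {K : Type} [Field K] [NumberField K] [IsGalois ℚ K]

lemma finrank_fixed (U : Subgroup (K ≃ₐ[ℚ] K)) : Module.finrank ℚ (fixedField U) = U.index := by
  rw [← card_quot, Subgroup.index_eq_card]

/-- the subgroup of an embedded field -/
lemma exists_subgroup {k : Type} [Field k] [NumberField k] (i : k →ₐ[ℚ] K) :
    ∃ V : Subgroup (K ≃ₐ[ℚ] K), Nonempty (k ≃+* fixedField V) ∧ V.index = Module.finrank ℚ k := by
  refine ⟨i.fieldRange.fixingSubgroup, ?_⟩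
  have h1 : fixedField i.fieldRange.fixingSubgroup = i.fieldRange :=
    IsGalois.fixedField_fixingSubgroup _
  have e : k ≃ₐ[ℚ] i.fieldRange := AlgEquiv.ofInjectiveField i
  have e' : k ≃ₐ[ℚ] fixedField i.fieldRange.fixingSubgroup :=
    e.trans (IntermediateField.equivOfEq h1.symm)
  refine ⟨⟨e'.toRingEquiv⟩, ?_⟩
  rw [← finrank_fixed]
  exact e'.toLinearEquiv.finrank_eq.symm

lemma top_equiv : Nonempty (fixedField (⊤ : Subgroup (K ≃ₐ[ℚ] K)) ≃+* ℚ) := by
  have h1 : fixedField (⊤ : Subgroup (K ≃ₐ[ℚ] K)) = ⊥ := IsGalois.fixedField_top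
  exact ⟨((IntermediateField.equivOfEq h1).trans (IntermediateField.botEquiv ℚ K)).toRingEquiv⟩

end fixed

section hom

variable {A : Type} [CommGroup A] (F : ArtinFn A) {K : Type} [Field K] [NumberField K]
  [IsGalois ℚ K]

lemma v_top : F.v (fixedField (⊤ : Subgroup (K ≃ₐ[ℚ] K))) = F.v ℚ := by
  obtain ⟨e⟩ := top_equiv (K := K)
  exact F.iso _ _ e

/-- relations between permutation characters -/
lemma rel_zero [Fintype (Subgroup (K ≃ₐ[ℚ] K))] {c : Subgroup (K ≃ₐ[ℚ] K) → ℤ}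
    (h : ∀ g : K ≃ₐ[ℚ] K, ∑ U, (c U : ℂ) * ind U (fun _ => (1 : ℂ)) g = 0) :
    ∏ U, F.v (fixedField U) ^ c U = 1 := by
  classical
  have h1 := F.rel K ⊤ (c + Pi.single ⊤ 1) (fun g => by
    simp only [Pi.add_apply, Int.cast_add, add_mul]
    rw [Finset.sum_add_distrib, h g, zero_add, Finset.sum_eq_single ⊤]
    · rw [Pi.single_eq_same, Int.cast_one, one_mul]
    · intro U _ hU
      rw [Pi.single_eq_of_ne hU, Int.cast_zero, zero_mul]
    · intro h0
      exact absurd (Finset.mem_univ _) h0)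
  simp only [Pi.add_apply, zpow_add] at h1
  rw [Finset.prod_mul_distrib, Finset.prod_eq_single (f := fun U =>
    F.v (fixedField U) ^ (Pi.single ⊤ 1 : Subgroup (K ≃ₐ[ℚ] K) → ℤ) U) ⊤] at h1
  · rw [Pi.single_eq_same, zpow_one] at h1
    exact mul_eq_right.mp h1
  · intro U _ hU
    rw [Pi.single_eq_of_ne hU, zpow_zero]
  · intro h0
    exact absurd (Finset.mem_univ _) h0

/-- the value of a combination of permutation characters -/
def HV (f : (K ≃ₐ[ℚ] K) → ℂ) (a : A) : Prop :=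
  ∃ c : Subgroup (K ≃ₐ[ℚ] K) → ℤ, (∀ g, ∑ᶠ U, (c U : ℂ) * ind U (fun _ => (1 : ℂ)) g = f g) ∧
    ∏ᶠ U, F.v (fixedField U) ^ c U = a

variable {F}

lemma HV.add {f f' : (K ≃ₐ[ℚ] K) → ℂ} {a a' : A} (h : HV F f a) (h' : HV F f' a') :
    HV F (f + f') (a * a') := by
  classical
  obtain ⟨c, h1, rfl⟩ := h
  obtain ⟨c', h1', rfl⟩ := h'
  refine ⟨c + c', fun g => ?_, ?_⟩
  · rw [Pi.add_apply, ← h1 g, ← h1' g, ← finsum_add_distrib (Set.toFinite _) (Set.toFinite _)]
    refine finsum_congr fun U => ?_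
    simp only [Pi.add_apply]
    push_cast
    ring
  · rw [← finprod_mul_distrib (Set.toFinite _) (Set.toFinite _)]
    refine finprod_congr fun U => ?_
    rw [Pi.add_apply, zpow_add]

lemma HV.neg {f : (K ≃ₐ[ℚ] K) → ℂ} {a : A} (h : HV F f a) : HV F (-f) a⁻¹ := by
  classical
  obtain ⟨c, h1, rfl⟩ := h
  refine ⟨-c, fun g => ?_, ?_⟩
  · rw [Pi.neg_apply, ← h1 g, ← finsum_neg_distrib]
    refine finsum_congr fun U => ?_
    simp
  · rw [← finprod_inv_distrib]
    refine finprod_congr fun U => ?_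
    rw [Pi.neg_apply, zpow_neg]

lemma HV.sub {f f' : (K ≃ₐ[ℚ] K) → ℂ} {a a' : A} (h : HV F f a) (h' : HV F f' a') :
    HV F (f - f') (a * a'⁻¹) := by
  rw [sub_eq_add_neg]
  exact h.add h'.neg

lemma HV.ind (U : Subgroup (K ≃ₐ[ℚ] K)) : HV F (ind U (fun _ => (1 : ℂ))) (F.v (fixedField U)) := by
  classical
  have : Fintype (Subgroup (K ≃ₐ[ℚ] K)) := Fintype.ofFinite _
  refine ⟨Pi.single U 1, fun g => ?_, ?_⟩
  · rw [finsum_eq_single _ U]
    · rw [Pi.single_eq_same, Int.cast_one, one_mul]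
    · intro W hW
      rw [Pi.single_eq_of_ne hW, Int.cast_zero, zero_mul]
  · rw [finprod_eq_single _ U]
    · rw [Pi.single_eq_same, zpow_one]
    · intro W hW
      rw [Pi.single_eq_of_ne hW, zpow_zero]

lemma HV.unique {f : (K ≃ₐ[ℚ] K) → ℂ} {a a' : A} (h : HV F f a) (h' : HV F f a') : a = a' := by
  classical
  have : Fintype (Subgroup (K ≃ₐ[ℚ] K)) := Fintype.ofFinite _
  obtain ⟨c, h1, h2⟩ := h.sub h'
  have h3 := rel_zero F (c := c) (fun g => by
    rw [← finsum_eq_sum_of_fintype, h1 g, sub_self]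
    rfl)
  rw [← finprod_eq_prod_of_fintype, h2] at h3
  exact mul_inv_eq_one.mp h3

end hom

end Pool.Agent.K9h67.EV
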