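import Mathlib
import Pool.Agent.K9h41.DC.As

/-!
# The classes of the L-functions modulo those with algebraic values
-/

set_option autoImplicit false
set_option linter.unusedSectionVars false

open NumberField NumberField.InfinitePlace IntermediateField IsDedekindDomain Filter Topology
  Pool.Agent.R389 Pool.Agent.K4H74.ST Pool.Agent.K4H74.SC Pool.Agent.K9h41.DC

namespace Pool.Agent.K9h67.EV

variable {E : Type} [Field E] [CharZero E] (D : MotiveData E) (m : ℤ)

/-- the families which continue to the half plane `Re s ≥ m` and have the values `ι e` at `m` -/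
def SS : Subgroup ((E →+* ℂ) → ℂ → ℂˣ) where
  carrier := {g | ∃ e : E, e ≠ 0 ∧ ∀ ι, ∃ f : ℂ → ℂ, (∀ s : ℂ, (m : ℝ) ≤ s.re → MeromorphicAt f s) ∧
    (∀ s : ℂ, 1 + (D.w : ℝ) / 2 < s.re → f s = g ι s) ∧ Tendsto f (𝓝[≠] (m : ℂ)) (𝓝 (ι e))}
  one_mem' := ⟨1, one_ne_zero, fun ι => ⟨fun _ => 1, fun s _ => MeromorphicAt.const 1 s,
    fun s _ => rfl, by rw [map_one]; exact tendsto_const_nhds⟩⟩
  mul_mem' := by
    rintro a b ⟨e, he, h⟩ ⟨e', he', h'⟩
    refine ⟨e * e', mul_ne_zero he he', fun ι => ?_⟩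
    obtain ⟨f, h1, h2, h3⟩ := h ι
    obtain ⟨f', h1', h2', h3'⟩ := h' ι
    refine ⟨f * f', fun s hs => (h1 s hs).mul (h1' s hs), fun s hs => ?_, ?_⟩
    · rw [Pi.mul_apply, h2 s hs, h2' s hs]
      rfl
    · rw [map_mul]
      exact h3.mul h3'
  inv_mem' := by
    rintro a ⟨e, he, h⟩
    refine ⟨e⁻¹, inv_ne_zero he, fun ι => ?_⟩
    obtain ⟨f, h1, h2, h3⟩ := h ι
    refine ⟨f⁻¹, fun s hs => (h1 s hs).inv, fun s hs => ?_, ?_⟩
    · rw [Pi.inv_apply, h2 s hs]
      change _ = (((a ι s)⁻¹ : ℂˣ) : ℂ)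
      rw [Units.val_inv_eq_inv_val]
    · rw [map_inv₀]
      exact h3.inv₀ ((map_ne_zero ι).mpr he)

variable {D m}

lemma mem_SS_of_const {g : (E →+* ℂ) → ℂ → ℂˣ} {e : E} (he : e ≠ 0)
    (h : ∀ ι s, 1 + (D.w : ℝ) / 2 < s.re → (g ι s : ℂ) = ι e) : g ∈ SS D m :=
  ⟨e, he, fun ι => ⟨fun _ => ι e, fun s _ => MeromorphicAt.const _ s,
    fun s hs => (h ι s hs).symm, tendsto_const_nhds⟩⟩

/-- a square root of the discriminant -/
noncomputable def sd (k : Type) [Field k] [NumberField k] : ℂ :=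
  (IsAlgClosed.exists_pow_nat_eq (discr k : ℂ) two_pos).choose

lemma sd_sq (k : Type) [Field k] [NumberField k] : sd k ^ 2 = (discr k : ℂ) :=
  (IsAlgClosed.exists_pow_nat_eq (discr k : ℂ) two_pos).choose_spec

lemma sqrt_ne {k : Type} [Field k] [NumberField k] {δ : ℂ} (h : δ ^ 2 = (discr k : ℂ)) : δ ≠ 0 := by
  rintro rfl
  rw [zero_pow two_ne_zero] at h
  exact discr_ne_zero k (by exact_mod_cast h.symm)

variable (D m)

/-- the period which is predicted for a totally real field of degree `d` -/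
noncomputable def nr (ι : E →+* ℂ) (d : ℕ) (δ : ℂ) : ℂ :=
  (2 * Real.pi * Complex.I) ^ (m * (D.n * d : ℕ)) * (D.period ι m ^ d * δ ^ D.n)

variable {D m}

lemma nr_ne (ι : E →+* ℂ) (d : ℕ) {δ : ℂ} (h : δ ≠ 0) : nr D m ι d δ ≠ 0 :=
  mul_ne_zero (zpow_ne_zero _ Complex.two_pi_I_ne_zero)
    (mul_ne_zero (pow_ne_zero _ (period_ne D ι m)) (pow_ne_zero _ h))

lemma nr_neg (ι : E →+* ℂ) (d : ℕ) (δ : ℂ) : nr D m ι d (-δ) = (-1) ^ D.n * nr D m ι d δ := by
  rw [nr, nr, neg_pow]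
  ring

lemma nr_mul (ι : E →+* ℂ) (d : ℕ) (q δ : ℂ) : nr D m ι d (q * δ) = q ^ D.n * nr D m ι d δ := by
  rw [nr, nr, mul_pow]
  ring

/-- two square roots of one number -/
lemma sq_ratio {δ δ' : ℂ} (h : δ ^ 2 = δ' ^ 2) : ∃ u : ℚ, u ≠ 0 ∧ δ = u * δ' := by
  rcases sq_eq_sq_iff_eq_or_eq_neg.mp h with h1 | h1
  · exact ⟨1, one_ne_zero, by rw [h1]; simp⟩
  · exact ⟨-1, by norm_num, by rw [h1]; simp⟩

variable (D m)

/-- the L-function divided by the predicted period -/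
noncomputable def LL (k : Type) [Field k] [NumberField k] : (E →+* ℂ) → ℂ → ℂˣ := fun ι s =>
  Units.mk0 (Complex.exp (lg D ι k s) / nr D m ι (Module.finrank ℚ k) (sd k))
    (div_ne_zero (Complex.exp_ne_zero _) (nr_ne ι _ (sqrt_ne (sd_sq k))))

/-- its class -/
noncomputable def VV (k : Type) [Field k] [NumberField k] : ((E →+* ℂ) → ℂ → ℂˣ) ⧸ SS D m :=
  QuotientGroup.mk (LL D m k)

variable {D m}

lemma LL_val (k : Type) [Field k] [NumberField k] (ι : E →+* ℂ) (s : ℂ) : (LL D m k ι s : ℂ)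
    = Complex.exp (lg D ι k s) / nr D m ι (Module.finrank ℚ k) (sd k) := rfl

/-- the predicted period of a totally real field -/
lemma pred_eq (k : Type) [Field k] [NumberField k] [IsTotallyReal k] (ι : E →+* ℂ) (δ : ℂ) :
    ((2 * Real.pi * Complex.I) ^ (m * (D.n * Module.finrank ℚ k : ℕ)) *
      (D.period ι m ^ (nrRealPlaces k + nrComplexPlaces k) *
        D.period ι (m + 1) ^ nrComplexPlaces k * δ ^ D.n))
      = nr D m ι (Module.finrank ℚ k) δ := by
  have h1 : nrComplexPlaces k = 0 := IsTotallyReal.nrComplexPlaces_eq_zero k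
  have h2 : nrRealPlaces k = Module.finrank ℚ k := by
    have := card_add_two_mul_card_eq_rank k
    omega
  rw [h1, h2, nr]
  simp

lemma VV_of_deligne (k : Type) [Field k] [NumberField k] [IsTotallyReal k] {e : E} (he : e ≠ 0)
    (h : DeligneWith D k m e) : VV D m k = 1 := by
  obtain ⟨δ, hδ, h1⟩ := h
  rw [VV, QuotientGroup.eq_one_iff]
  obtain ⟨u, hu, rfl⟩ := sq_ratio (hδ.trans (sd_sq k).symm)
  refine ⟨e * (u : E) ^ D.n, mul_ne_zero he (pow_ne_zero _ (by exact_mod_cast hu)), fun ι => ?_⟩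
  obtain ⟨f, f1, f2, f3⟩ := h1 ι
  refine ⟨fun s => f s / nr D m ι (Module.finrank ℚ k) (sd k),
    fun s hs => (f1 s hs).fun_div (MeromorphicAt.const _ s), fun s hs => ?_, ?_⟩
  · change f s / _ = _
    rw [LL_val, (f2 s hs).unique (hasProd_euler D ι hs)]
  · have h2 := f3.div_const (nr D m ι (Module.finrank ℚ k) (sd k))
    rw [pred_eq, nr_mul] at h2
    convert h2 using 2
    rw [map_mul, map_pow, map_ratCast]
    have h3 := nr_ne (D := D) (m := m) ι (Module.finrank ℚ k) (sqrt_ne (sd_sq k))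
    field_simp

/-- **relations between permutation characters** -/
theorem VV_rel {K : Type} [Field K] [NumberField K] [IsGalois ℚ K] (φ : K →ₐ[ℚ] ℂ)
    {V : Subgroup (K ≃ₐ[ℚ] K)} [Fintype (Subgroup (K ≃ₐ[ℚ] K))] {c : Subgroup (K ≃ₐ[ℚ] K) → ℤ}
    (hc2 : ∀ g : K ≃ₐ[ℚ] K, ∑ U, (c U : ℂ) * ind U (fun _ => (1 : ℂ)) g
      = ind V (fun _ => (1 : ℂ)) g) :
    ∏ U, VV D m (fixedField U) ^ c U = VV D m (fixedField V) := by
  classical
  have hc3' : ∀ g : K ≃ₐ[ℚ] K, ∑ U, (c U : ℂ) * fx U g = fx V g := by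
    intro g
    have := hc2 g
    rw [ind_one] at this
    rw [← this]
    exact Finset.sum_congr rfl fun U _ => by rw [ind_one]
  have hc3 : ∀ g : K ≃ₐ[ℚ] K, ∑ U, c U * (fx U g : ℤ) = fx V g := fun g => by
    exact_mod_cast hc3' g
  have hc4 : ∀ g : K ≃ₐ[ℚ] K, ∏ U, sg U g ^ c U = sg V g := prod_sg c V hc3'
  obtain ⟨q, δ', hq0, hδ', hprod⟩ := disc_rel (match_fixed φ V) hc4
    (δ := fun U => sd (fixedField U)) (fun U _ => sd_sq _)
  obtain ⟨u, hu, rfl⟩ := sq_ratio (hδ'.trans (sd_sq (fixedField V)).symm)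
  have hdeg : ∑ U, c U * (Module.finrank ℚ (fixedField U) : ℤ)
      = Module.finrank ℚ (fixedField V) := by
    rw [← (match_fixed φ V).deg, ← hc3 1]
    exact Finset.sum_congr rfl fun U _ => by rw [(match_fixed φ U).deg]
  have h1 : ∏ U, VV D m (fixedField U) ^ c U
      = QuotientGroup.mk (∏ U, LL D m (fixedField U) ^ c U) := by
    rw [QuotientGroup.mk_prod]
    exact Finset.prod_congr rfl fun U _ => (QuotientGroup.mk_zpow (SS D m) _ _).symm
  rw [h1, VV, QuotientGroup.eq]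
  refine mem_SS_of_const (e := ((q * u : ℚ) : E) ^ D.n)
    (pow_ne_zero _ (by exact_mod_cast mul_ne_zero hq0 hu)) (fun ι s hs => ?_)
  have h2 : ((∏ U, LL D m (fixedField U) ^ c U : (E →+* ℂ) → ℂ → ℂˣ) ι s : ℂ)
      = (∏ U, Complex.exp (lg D ι (fixedField U) s) ^ c U) /
        ∏ U, nr D m ι (Module.finrank ℚ (fixedField U)) (sd (fixedField U)) ^ c U := by
    rw [Finset.prod_apply, Finset.prod_apply, Units.coe_prod, ← Finset.prod_div_distrib]
    refine Finset.prod_congr rfl fun U _ => ?_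
    rw [Pi.pow_apply, Pi.pow_apply, Units.val_zpow_eq_zpow_val, LL_val, div_zpow]
  have h3 : ∏ U, Complex.exp (lg D ι (fixedField U) s) ^ c U
      = Complex.exp (lg D ι (fixedField V) s) := by
    rw [← lg_rel D (match_fixed φ V) hc2 ι hs, Complex.exp_sum]
    exact Finset.prod_congr rfl fun U _ => by rw [← Complex.exp_int_mul]
  have h4 : ∏ U, nr D m ι (Module.finrank ℚ (fixedField U)) (sd (fixedField U)) ^ c U
      = ((q : ℂ) * u) ^ D.n * nr D m ι (Module.finrank ℚ (fixedField V)) (sd (fixedField V)) := by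
    have hT : (2 * Real.pi * Complex.I : ℂ) ≠ 0 := Complex.two_pi_I_ne_zero
    rw [← nr_mul, mul_assoc, ← hprod]
    simp only [nr]
    generalize (2 * Real.pi * Complex.I : ℂ) = T at hT ⊢
    simp only [mul_zpow]
    rw [Finset.prod_mul_distrib, Finset.prod_mul_distrib,
      prod_zpow_nat _ (period_ne D ι m) _ _ hdeg]
    have h5 : ∏ U, (T ^ (m * (D.n * Module.finrank ℚ (fixedField U) : ℕ))) ^ c U
        = T ^ (m * (D.n * Module.finrank ℚ (fixedField V) : ℕ)) := by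
      simp only [← zpow_mul]
      rw [prod_zpow _ hT]
      congr 1
      push_cast
      rw [← hdeg, Finset.mul_sum, Finset.mul_sum]
      exact Finset.sum_congr rfl fun U _ => by ring
    have h6 : ∏ U, (sd (fixedField U) ^ D.n) ^ c U = (∏ U, sd (fixedField U) ^ c U) ^ D.n := by
      rw [← Finset.prod_pow]
      refine Finset.prod_congr rfl fun U _ => ?_
      rw [← zpow_natCast, ← zpow_natCast, ← zpow_mul, ← zpow_mul, mul_comm]
    rw [h5, h6]
  have h7 : (((∏ U, LL D m (fixedField U) ^ c U)⁻¹ * LL D m (fixedField V) :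
      (E →+* ℂ) → ℂ → ℂˣ) ι s : ℂ) = ((∏ U, LL D m (fixedField U) ^ c U :
        (E →+* ℂ) → ℂ → ℂˣ) ι s : ℂ)⁻¹ * (LL D m (fixedField V) ι s : ℂ) := by
    rw [Pi.mul_apply, Pi.mul_apply, Units.val_mul, Pi.inv_apply, Pi.inv_apply,
      Units.val_inv_eq_inv_val]
  rw [h7, h2, h3, h4, LL_val, map_pow, map_ratCast]
  have h8 := Complex.exp_ne_zero (lg D ι (fixedField V) s)
  have h9 := nr_ne (D := D) (m := m) ι (Module.finrank ℚ (fixedField V))
    (sqrt_ne (sd_sq (fixedField V)))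
  push_cast
  field_simp

end Pool.Agent.K9h67.EV
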