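import Mathlib
import Pool.Agent.K9h67.EV.GrpB

/-!
# The relation of the dihedral group of order eight
-/

set_option autoImplicit false
set_option linter.unusedSectionVars false

open Pool.Agent.R389 Pool.Agent.K4H74.SC Pool.Agent.K9h41.DC

namespace Pool.Agent.K9h67.EV

variable {G : Type} [Group G] [Finite G]

open Classical in
/-- the indicator function of a subgroup -/
noncomputable def idc (U : Subgroup G) (y : G) : ℂ := if y ∈ U then 1 else 0

lemma sum_idc [Fintype G] (U : Subgroup G) : ∑ y : G, idc U y = Nat.card U := by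
  classical
  simp only [idc]
  rw [Finset.sum_boole, Nat.card_eq_fintype_card, Fintype.card_subtype]

lemma ind_idc [Fintype G] (U : Subgroup G) (g : G) :
    (Nat.card U : ℂ) * ind U (fun _ => (1 : ℂ)) g = ∑ x : G, idc U (x⁻¹ * g * x) := by
  classical
  have h0 : (Nat.card U : ℂ) ≠ 0 := by exact_mod_cast Nat.card_pos.ne'
  rw [ind_eq, mul_inv_cancel_left₀ h0]
  refine Finset.sum_congr rfl fun x _ => ?_
  rw [ext_one, idc]

lemma card_conj {H H' : Subgroup G} {y : G} (h : ∀ z, z ∈ H' ↔ y * z * y⁻¹ ∈ H) :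
    Nat.card H' = Nat.card H := by
  refine Nat.card_congr ⟨fun z => ⟨y * z * y⁻¹, (h z).mp z.2⟩,
    fun z => ⟨y⁻¹ * z * y, (h _).mpr ?_⟩, ?_, ?_⟩
  · have : y * (y⁻¹ * (z : G) * y) * y⁻¹ = z := by group
    rw [this]
    exact z.2
  · intro z
    apply Subtype.ext
    simp only
    group
  · intro z
    apply Subtype.ext
    simp only
    group

lemma ind_conj' {H H' : Subgroup G} {y : G} (h : ∀ z, z ∈ H' ↔ y * z * y⁻¹ ∈ H) :
    ind H' (fun _ => (1 : ℂ)) = ind H (fun _ => (1 : ℂ)) :=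
  ind_conj H H' y h _ _ (fun _ _ => rfl)

/-- the relation of the dihedral group of order eight -/
lemma d4 {U₁ U₂ C R₁ R₂ A : Subgroup G} {s : ℕ} {y y' : G}
    (hpt : ∀ x, idc U₁ x + idc U₂ x + idc C x = idc R₁ x + idc R₂ x + idc A x)
    (hU : ∀ z, z ∈ U₂ ↔ y * z * y⁻¹ ∈ U₁) (hR : ∀ z, z ∈ R₂ ↔ y' * z * y'⁻¹ ∈ R₁)
    (hU₁ : U₁.index = 4 * s) (hC : C.index = 2 * s) (hA : A.index = 2 * s) :
    R₁.index = 4 * s ∧ ∀ g, ind U₁ (fun _ => (1 : ℂ)) g + ind C (fun _ => (1 : ℂ)) g
      = ind R₁ (fun _ => (1 : ℂ)) g + ind A (fun _ => (1 : ℂ)) g := by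
  classical
  have : Fintype G := Fintype.ofFinite G
  have c1 := card_conj hU
  have c2 := card_conj hR
  have hs : 0 < s := by
    rcases Nat.eq_zero_or_pos s with rfl | h
    · exact absurd hA (Subgroup.index_ne_zero_of_finite (H := A))
    · exact h
  -- the cardinalities
  have e1 := Subgroup.card_mul_index U₁
  have e2 := Subgroup.card_mul_index C
  have e3 := Subgroup.card_mul_index A
  have e4 := Subgroup.card_mul_index R₁
  rw [hU₁] at e1
  rw [hC] at e2
  rw [hA] at e3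
  have f1 : Nat.card C = 2 * Nat.card U₁ := by
    have h : s * (2 * Nat.card C) = s * (2 * (2 * Nat.card U₁)) := by linarith
    have := Nat.eq_of_mul_eq_mul_left hs h
    omega
  have f2 : Nat.card A = 2 * Nat.card U₁ := by
    have h : s * (2 * Nat.card A) = s * (2 * (2 * Nat.card U₁)) := by linarith
    have := Nat.eq_of_mul_eq_mul_left hs h
    omega
  have f3 : Nat.card R₁ = Nat.card U₁ := by
    have h : (2 : ℂ) * Nat.card U₁ + Nat.card C = 2 * Nat.card R₁ + Nat.card A := by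
      have h1 : ∑ x : G, (idc U₁ x + idc U₂ x + idc C x)
          = ∑ x : G, (idc R₁ x + idc R₂ x + idc A x) := Finset.sum_congr rfl fun x _ => hpt x
      simp only [Finset.sum_add_distrib, sum_idc] at h1
      rw [c1, c2] at h1
      linear_combination h1
    have h' : 2 * Nat.card U₁ + Nat.card C = 2 * Nat.card R₁ + Nat.card A := by exact_mod_cast h
    omega
  refine ⟨?_, fun g => ?_⟩
  · rw [f3, ← e1] at e4
    exact Nat.eq_of_mul_eq_mul_left Nat.card_pos e4
  · have h1 : ∑ x : G, (idc U₁ (x⁻¹ * g * x) + idc U₂ (x⁻¹ * g * x) + idc C (x⁻¹ * g * x))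
        = ∑ x : G, (idc R₁ (x⁻¹ * g * x) + idc R₂ (x⁻¹ * g * x) + idc A (x⁻¹ * g * x)) :=
      Finset.sum_congr rfl fun x _ => hpt _
    simp only [Finset.sum_add_distrib, ← ind_idc] at h1
    rw [ind_conj' hU, ind_conj' hR, c1, c2, f1, f2, f3] at h1
    have h0 : (Nat.card U₁ : ℂ) ≠ 0 := by exact_mod_cast Nat.card_pos.ne'
    push_cast at h1
    have h2 : (2 * (Nat.card U₁ : ℂ)) * (ind U₁ (fun _ => (1 : ℂ)) g + ind C (fun _ => (1 : ℂ)) g)
        = (2 * (Nat.card U₁ : ℂ)) *
          (ind R₁ (fun _ => (1 : ℂ)) g + ind A (fun _ => (1 : ℂ)) g) := by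
      linear_combination h1
    exact mul_left_cancel₀ (mul_ne_zero two_ne_zero h0) h2

end Pool.Agent.K9h67.EV
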