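import Mathlib
import Pool.Agent.H637R2.Leo.Split

/-!
# An element `b` with positive real parts and such that the products of conjugates of `b` are not squares
-/

set_option autoImplicit false

open NumberField Polynomial

namespace Pool.Agent.K9h67.EV

lemma exists_nonsquare {q : ℕ} [Fact q.Prime] (hq : q ≠ 2) : ∃ ν : ZMod q, ¬ IsSquare ν := by
  have h : ringChar (ZMod q) ≠ 2 := by rwa [ZMod.ringChar_zmod_n]
  exact FiniteField.exists_nonsquare h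

theorem elt (N : Type) [Field N] [NumberField N] [IsGalois ℚ N] {c₀ : ℕ} (hc₀ : c₀ ≠ 0) :
    ∃ b : N, (∀ ψ : N →+* ℂ, 0 < (ψ b).re) ∧ (∃ x : 𝓞 N, b = 1 + c₀ * (x : N)) ∧
      ∀ T : Finset (N ≃ₐ[ℚ] N), T.Nonempty → ¬ IsSquare (∏ g ∈ T, g b) := by
  classical
  have : Fintype (N ≃ₐ[ℚ] N) := Fintype.ofFinite _
  -- an integral element with different conjugates
  obtain ⟨α0, hα0⟩ := Field.exists_primitive_element ℚ N
  obtain ⟨m, hm0, hm⟩ := ((IsFractionRing.isAlgebraic_iff ℤ ℚ N).2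
    (Algebra.IsAlgebraic.isAlgebraic (R := ℚ) α0)).exists_integral_multiple
  let θ : 𝓞 N := ⟨m • α0, hm⟩
  let σ : (N ≃ₐ[ℚ] N) → (𝓞 N →+* 𝓞 N) := fun g => RingOfIntegers.mapRingHom (g : N →+* N)
  have hσ : ∀ (g : N ≃ₐ[ℚ] N) (x : 𝓞 N), ((σ g x : 𝓞 N) : N) = g x := fun g x => rfl
  have hθ : ∀ g h : N ≃ₐ[ℚ] N, g ≠ h → σ g θ - σ h θ ≠ 0 := by
    intro g h hgh h0
    apply hgh
    have h1 : (m : N) * g α0 = (m : N) * h α0 := by
      have h2 := congrArg (fun x : 𝓞 N => (x : N)) (sub_eq_zero.mp h0)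
      simp only [hσ] at h2
      change g (m • α0) = h (m • α0) at h2
      rwa [map_zsmul, map_zsmul, zsmul_eq_mul, zsmul_eq_mul] at h2
    have h2 : g α0 = h α0 := mul_left_cancel₀ (by exact_mod_cast hm0) h1
    have h3 : (g : N →ₐ[ℚ] N).comp (⊤ : IntermediateField ℚ N).val
        = (h : N →ₐ[ℚ] N).comp (⊤ : IntermediateField ℚ N).val := by
      refine IntermediateField.algHom_ext_of_eq_adjoin (F := ℚ) hα0.symm ?_
      intro x hx
      obtain rfl : x = α0 := hx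
      exact h2
    ext x
    exact congrArg (fun f => f (⟨x, IntermediateField.mem_top⟩ : (⊤ : IntermediateField ℚ N))) h3
  let Δ : 𝓞 N := ∏ p ∈ (Finset.univ : Finset ((N ≃ₐ[ℚ] N) × (N ≃ₐ[ℚ] N))).filter
    (fun p => p.1 ≠ p.2), (σ p.1 θ - σ p.2 θ)
  have hΔ : Δ ≠ 0 := Finset.prod_ne_zero_iff.mpr fun p hp => hθ _ _ (Finset.mem_filter.mp hp).2
  let B : ℕ := 2 * c₀ * Ideal.absNorm (Ideal.span {Δ})
  have hB : B ≠ 0 := by
    refine mul_ne_zero (mul_ne_zero two_ne_zero hc₀) ?_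
    rw [Ne, Ideal.absNorm_eq_zero_iff, Ideal.span_singleton_eq_bot]
    exact hΔ
  obtain ⟨q, hq, hqB, ⟨φ⟩⟩ := Pool.Agent.H637R2.Leo.exists_hom N B hB
  have : Fact q.Prime := ⟨hq⟩
  have hq2 : q ≠ 2 := by
    rintro rfl
    exact hqB (dvd_mul_of_dvd_left (dvd_mul_right _ _) _)
  have hqc : ((c₀ : ℕ) : ZMod q) ≠ 0 := by
    rw [Ne, ZMod.natCast_eq_zero_iff]
    intro h
    exact hqB ((h.mul_left 2).mul_right _)
  have hφΔ : φ Δ ≠ 0 := by
    intro h0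
    have h1 : Δ ∣ ((Ideal.absNorm (Ideal.span {Δ}) : ℕ) : 𝓞 N) :=
      Ideal.mem_span_singleton.mp (Ideal.absNorm_mem _)
    obtain ⟨x, hx⟩ := h1
    have h2 := congrArg φ hx
    rw [map_natCast, map_mul, h0, zero_mul, ZMod.natCast_eq_zero_iff] at h2
    exact hqB (h2.trans (dvd_mul_left _ _))
  have hφθ : ∀ g h : N ≃ₐ[ℚ] N, g ≠ h → φ (σ g θ) ≠ φ (σ h θ) := by
    intro g h hgh h0
    apply hφΔ
    rw [map_prod]
    refine Finset.prod_eq_zero (i := (g, h)) ?_ ?_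
    · simp [hgh]
    · rw [map_sub, h0, sub_self]
  -- the element `t`
  choose c hc using fun g : N ≃ₐ[ℚ] N => ZMod.intCast_surjective (φ (σ g θ))
  let t : 𝓞 N := ∏ h ∈ Finset.univ.filter (fun h : N ≃ₐ[ℚ] N => h ≠ 1), (θ - (c h : 𝓞 N))
  have hσ1 : σ 1 θ = θ := by
    apply RingOfIntegers.ext
    rfl
  have ht1 : φ t ≠ 0 := by
    rw [map_prod, Finset.prod_ne_zero_iff]
    intro h hh
    rw [map_sub, map_intCast, hc h, sub_ne_zero]
    have := hφθ 1 h (Ne.symm (Finset.mem_filter.mp hh).2)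
    rwa [hσ1] at this
  have ht2 : ∀ g : N ≃ₐ[ℚ] N, g ≠ 1 → φ (σ g t) = 0 := by
    intro g hg
    rw [map_prod, map_prod]
    refine Finset.prod_eq_zero (i := g) (by simp [hg]) ?_
    rw [map_sub, map_intCast, map_sub, map_intCast, hc g, sub_self]
  obtain ⟨ν, hν⟩ := exists_nonsquare hq2
  obtain ⟨u, hu⟩ := ZMod.intCast_surjective ((ν - 1) / (φ t * (c₀ : ZMod q)))
  -- the number `M`
  let M : ℕ := ∑ ψ : N →+* ℂ, ⌈‖ψ ((u : N) * (t : N))‖⌉₊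
  let b : 𝓞 N := 1 + (c₀ : 𝓞 N) * ((u : 𝓞 N) * t + ((q * M : ℕ) : 𝓞 N))
  have hφb : φ b = ν := by
    change φ (1 + (c₀ : 𝓞 N) * ((u : 𝓞 N) * t + ((q * M : ℕ) : 𝓞 N))) = ν
    rw [map_add, map_mul, map_add, map_one, map_mul, map_intCast, map_natCast, map_natCast, hu]
    push_cast
    rw [ZMod.natCast_self]
    field_simp
    ring
  have hφgb : ∀ g : N ≃ₐ[ℚ] N, g ≠ 1 → φ (σ g b) = 1 := by
    intro g hg
    change φ (σ g (1 + (c₀ : 𝓞 N) * ((u : 𝓞 N) * t + ((q * M : ℕ) : 𝓞 N)))) = 1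
    rw [map_add, map_add, map_mul, map_mul, map_add, map_add, map_one, map_one, map_mul, map_mul,
      ht2 g hg, map_natCast, map_natCast, map_natCast, map_natCast]
    push_cast
    rw [ZMod.natCast_self]
    ring
  refine ⟨(b : N), fun ψ => ?_, ⟨(u : 𝓞 N) * t + ((q * M : ℕ) : 𝓞 N), by simp [b]⟩,
    fun T hT => ?_⟩
  · have h1 : (‖ψ ((u : N) * (t : N))‖ : ℝ) ≤ M := by
      refine (Nat.le_ceil _).trans ?_
      exact_mod_cast Finset.single_le_sum (f := fun ψ : N →+* ℂ => ⌈‖ψ ((u : N) * (t : N))‖⌉₊)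
        (fun _ _ => Nat.zero_le _) (Finset.mem_univ ψ)
    have h2 : (b : N) = 1 + (c₀ : N) * ((u : N) * (t : N) + ((q * M : ℕ) : N)) := by
      simp [b]
    rw [h2, map_add, map_mul, map_add, map_one, map_natCast, map_natCast, Complex.add_re,
      Complex.one_re]
    have h3 := Complex.abs_re_le_norm (ψ ((u : N) * (t : N)))
    have h4 := neg_le_of_abs_le h3
    have h5 : (M : ℝ) ≤ ((q * M : ℕ) : ℝ) := by
      exact_mod_cast Nat.le_mul_of_pos_left M hq.pos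
    have h6 : 0 ≤ (ψ ((u : N) * (t : N)) + ((q * M : ℕ) : ℂ)).re := by
      rw [Complex.add_re, Complex.natCast_re]
      linarith
    have h7 : ((c₀ : ℂ) * (ψ ((u : N) * (t : N)) + ((q * M : ℕ) : ℂ))).re
        = (c₀ : ℝ) * (ψ ((u : N) * (t : N)) + ((q * M : ℕ) : ℂ)).re := by
      rw [Complex.mul_re, Complex.natCast_re, Complex.natCast_im, zero_mul, sub_zero]
    rw [h7]
    have h8 : (0 : ℝ) ≤ c₀ := Nat.cast_nonneg _
    have h9 := mul_nonneg h8 h6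
    linarith
  · rintro ⟨x, hx⟩
    -- we may assume that `1 ∈ T`
    obtain ⟨h, hh⟩ := hT
    have hx0 : ∏ g ∈ T, (h⁻¹ * g) (b : N) = h⁻¹ x * h⁻¹ x := by
      rw [← map_mul, ← hx, map_prod]
      rfl
    have hx1 : IsIntegral ℤ (h⁻¹ x) := by
      have h1 : IsIntegral ℤ (h⁻¹ x * h⁻¹ x) := by
        rw [← hx0]
        refine IsIntegral.prod _ fun g _ => ?_
        rw [← hσ]
        exact RingOfIntegers.isIntegral_coe _
      rw [← pow_two] at h1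
      exact IsIntegral.of_pow two_pos h1
    let y : 𝓞 N := ⟨h⁻¹ x, hx1⟩
    have h1 : ∏ g ∈ T, σ (h⁻¹ * g) b = y * y := by
      apply RingOfIntegers.ext
      refine (map_prod (algebraMap (𝓞 N) N) _ _).trans ?_
      exact hx0
    have h2 := congrArg φ h1
    rw [map_mul, map_prod, ← Finset.mul_prod_erase T _ hh] at h2
    have h3 : ∏ g ∈ T.erase h, φ (σ (h⁻¹ * g) b) = 1 := by
      refine Finset.prod_eq_one fun g hg => hφgb _ ?_
      intro h4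
      have h5 : g = h := by
        rw [inv_mul_eq_one] at h4
        exact h4.symm
      exact (Finset.mem_erase.mp hg).1 h5
    have h4 : φ (σ (h⁻¹ * h) b) = ν := by
      rw [inv_mul_cancel]
      have h5 : σ 1 b = b := by
        apply RingOfIntegers.ext
        rfl
      rw [h5, hφb]
    rw [h3, h4, mul_one] at h2
    exact hν ⟨φ y, h2⟩

/-- natural numbers without square roots in `N` -/
theorem elt_nat (N : Type) [Field N] [NumberField N] {c₀ : ℕ} (hc₀ : c₀ ≠ 0) :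
    ∃ l₁ l₂ : ℕ, 0 < l₁ ∧ 0 < l₂ ∧ l₁ ≡ 1 [MOD c₀] ∧ l₂ ≡ 1 [MOD c₀] ∧
    ¬ IsSquare (l₁ : N) ∧ ¬ IsSquare (l₂ : N) ∧ ¬ IsSquare ((l₁ : N) * l₂) := by
  obtain ⟨q₁, hq₁, hq₁B, ⟨φ₁⟩⟩ := Pool.Agent.H637R2.Leo.exists_hom N (2 * c₀)
    (mul_ne_zero two_ne_zero hc₀)
  obtain ⟨q₂, hq₂, hq₂B, ⟨φ₂⟩⟩ := Pool.Agent.H637R2.Leo.exists_hom N (2 * c₀ * q₁)
    (mul_ne_zero (mul_ne_zero two_ne_zero hc₀) hq₁.ne_zero)
  have : Fact q₁.Prime := ⟨hq₁⟩
  have : Fact q₂.Prime := ⟨hq₂⟩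
  have h1 : q₁ ≠ 2 := by
    rintro rfl
    exact hq₁B (dvd_mul_right _ _)
  have h2 : q₂ ≠ 2 := by
    rintro rfl
    exact hq₂B (dvd_mul_of_dvd_left (dvd_mul_right _ _) _)
  have h3 : Nat.Coprime q₁ q₂ := by
    rw [Nat.coprime_primes hq₁ hq₂]
    rintro rfl
    exact hq₂B (dvd_mul_left _ _)
  have h31 : Nat.Coprime q₁ c₀ := (Nat.Prime.coprime_iff_not_dvd hq₁).mpr fun h =>
    hq₁B (h.mul_left 2)
  have h32 : Nat.Coprime q₂ c₀ := (Nat.Prime.coprime_iff_not_dvd hq₂).mpr fun h =>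
    hq₂B ((h.mul_left 2).mul_right _)
  obtain ⟨ν₁, hν₁⟩ := exists_nonsquare h1
  obtain ⟨ν₂, hν₂⟩ := exists_nonsquare h2
  obtain ⟨l₁, hl₁, hl₁c⟩ := Nat.chineseRemainder (h3.mul_right h31) ν₁.val 1
  obtain ⟨l₂, hl₂', hl₂c⟩ := Nat.chineseRemainder (h3.symm.mul_right h32) ν₂.val 1
  have hl₁' : l₁ ≡ 1 [MOD q₂] := hl₁c.of_mul_right _
  have hl₂ : l₂ ≡ 1 [MOD q₁] := hl₂c.of_mul_right _
  have hl₁c' : l₁ ≡ 1 [MOD c₀] := hl₁c.of_mul_left _
  have hl₂c' : l₂ ≡ 1 [MOD c₀] := hl₂c.of_mul_left _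
  have e1 : ((l₁ : ℕ) : ZMod q₁) = ν₁ := by
    rw [(ZMod.natCast_eq_natCast_iff _ _ _).mpr hl₁, ZMod.natCast_zmod_val]
  have e1' : ((l₁ : ℕ) : ZMod q₂) = 1 := by
    rw [(ZMod.natCast_eq_natCast_iff _ _ _).mpr hl₁', Nat.cast_one]
  have e2 : ((l₂ : ℕ) : ZMod q₁) = 1 := by
    rw [(ZMod.natCast_eq_natCast_iff _ _ _).mpr hl₂, Nat.cast_one]
  have e2' : ((l₂ : ℕ) : ZMod q₂) = ν₂ := by
    rw [(ZMod.natCast_eq_natCast_iff _ _ _).mpr hl₂', ZMod.natCast_zmod_val]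
  have key : ∀ (q : ℕ) (φ : 𝓞 N →+* ZMod q) (l : ℕ) (ν : ZMod q), (l : ZMod q) = ν →
      ¬ IsSquare ν → ¬ IsSquare (l : N) := by
    rintro q φ l ν hl hν ⟨x, hx⟩
    have hx1 : IsIntegral ℤ x := by
      have h1 : IsIntegral ℤ (x * x) := by
        rw [← hx, ← map_natCast (algebraMap (𝓞 N) N) l]
        exact RingOfIntegers.isIntegral_coe (l : 𝓞 N)
      rw [← pow_two] at h1
      exact IsIntegral.of_pow two_pos h1
    let y : 𝓞 N := ⟨x, hx1⟩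
    have h4 : ((l : ℕ) : 𝓞 N) = y * y := by
      apply RingOfIntegers.ext
      refine (map_natCast (algebraMap (𝓞 N) N) l).trans ?_
      exact hx
    have h5 := congrArg φ h4
    rw [map_natCast, map_mul, hl] at h5
    exact hν ⟨_, h5⟩
  have pos : ∀ (q : ℕ) [Fact q.Prime] (l : ℕ), (l : ZMod q) = 1 → 0 < l := by
    intro q _ l hl
    rcases Nat.eq_zero_or_pos l with rfl | h
    · rw [Nat.cast_zero] at hl
      exact absurd hl zero_ne_one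
    · exact h
  refine ⟨l₁, l₂, pos q₂ l₁ e1', pos q₁ l₂ e2, hl₁c', hl₂c', key q₁ φ₁ l₁ ν₁ e1 hν₁,
    key q₂ φ₂ l₂ ν₂ e2' hν₂, ?_⟩
  have h4 := key q₁ φ₁ (l₁ * l₂) ν₁ (by rw [Nat.cast_mul, e1, e2, mul_one]) hν₁
  rwa [Nat.cast_mul] at h4

end Pool.Agent.K9h67.EV
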