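import Mathlib
import Pool.Agent.K9h67.EV.GrpA

/-!
# Splitting fields, total reality, characters of order two
-/

set_option autoImplicit false
set_option linter.unusedSectionVars false

open NumberField Polynomial

namespace Pool.Agent.K9h67.EV

lemma exists_splitting (P : ℚ[X]) : ∃ (N : Type) (_ : Field N) (_ : NumberField N),
    P.IsSplittingField ℚ N := by
  have h0 : CharZero P.SplittingField := charZero_of_injective_algebraMap
    (algebraMap ℚ P.SplittingField).injective
  have h1 := IsSplittingField.splittingField P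
  refine ⟨P.SplittingField, inferInstance, ⟨⟩, ?_⟩
  convert h1
  exact Subsingleton.elim _ _

lemma isGalois_split (P : ℚ[X]) (N : Type) [Field N] [NumberField N] [P.IsSplittingField ℚ N] :
    IsGalois ℚ N := by
  have : Normal ℚ N := Normal.of_isSplittingField P
  exact ⟨⟩

lemma totallyReal_split (P : ℚ[X]) (N : Type) [Field N] [NumberField N] [P.IsSplittingField ℚ N]
    (h : ∀ z : ℂ, aeval z P = 0 → z.im = 0) : IsTotallyReal N := by
  constructor
  intro v
  rw [InfinitePlace.isReal_iff, ComplexEmbedding.isReal_iff]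
  let φ : N →ₐ[ℚ] ℂ := (v.embedding : N →+* ℂ).toRatAlgHom
  let φ' : N →ₐ[ℚ] ℂ := (ComplexEmbedding.conjugate v.embedding).toRatAlgHom
  have h1 : φ' = φ := by
    refine AlgHom.ext_of_adjoin_eq_top (IsSplittingField.adjoin_rootSet N P) ?_
    intro x hx
    have h2 : aeval x P = 0 := aeval_eq_zero_of_mem_rootSet hx
    have h3 : aeval (φ x) P = 0 := by rw [aeval_algHom_apply, h2, map_zero]
    have h4 := h _ h3
    change (starRingEnd ℂ) (φ x) = φ x
    exact Complex.conj_eq_iff_im.mpr h4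
  ext x
  exact congrArg (fun f => f x) h1

lemma im_eq_zero_of_minpoly {N : Type} [Field N] [NumberField N] [IsTotallyReal N] (x : N) {z : ℂ}
    (hz : aeval z (minpoly ℚ x) = 0) : ∃ φ : N →+* ℂ, φ x = z ∧ ∀ y, (φ y).im = 0 := by
  have h1 : z ∈ (minpoly ℚ x).rootSet ℂ := by
    rw [mem_rootSet]
    exact ⟨minpoly.ne_zero (Algebra.IsIntegral.isIntegral x), hz⟩
  rw [← NumberField.Embeddings.range_eval_eq_rootSet_minpoly N ℂ x] at h1
  obtain ⟨φ, hφ⟩ := h1
  refine ⟨φ, hφ, fun y => ?_⟩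
  have h2 := IsTotallyReal.complexEmbedding_isReal φ
  rw [ComplexEmbedding.isReal_iff] at h2
  have h3 := RingHom.congr_fun h2 y
  rw [ComplexEmbedding.conjugate_coe_eq] at h3
  exact Complex.conj_eq_iff_im.mp h3

section char

variable {K : Type} [Field K] [NumberField K]

lemma exists_char {x : K} (hx : x ≠ 0) (h : ∀ g : K ≃ₐ[ℚ] K, g x = x ∨ g x = -x) :
    ∃ χ : (K ≃ₐ[ℚ] K) →* ℤˣ, ∀ g, g x = (((χ g : ℤˣ) : ℤ) : K) * x := by
  classical
  have hne : x ≠ -x := by
    intro h0
    apply hx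
    have h1 : (2 : K) * x = 0 := by linear_combination h0
    exact (mul_eq_zero.mp h1).resolve_left two_ne_zero
  refine ⟨MonoidHom.mk' (fun g => if g x = x then 1 else -1) ?_, fun g => ?_⟩
  · intro g g'
    change (if g (g' x) = x then (1 : ℤˣ) else -1) = _
    rcases h g' with h1 | h1 <;> rcases h g with h2 | h2
    · simp [h1, h2]
    · simp [h1, h2, hne.symm]
    · simp [h1, h2, hne.symm]
    · simp [h1, h2, hne.symm]
  · rcases h g with h1 | h1
    · simp [h1]
    · simp [h1, hne.symm]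

lemma sqrt_or {x : K} {n : ℕ} (hx : x ^ 2 = n) (g : K ≃ₐ[ℚ] K) : g x = x ∨ g x = -x := by
  apply sq_eq_sq_iff_eq_or_eq_neg.mp
  rw [← map_pow, hx, map_natCast]

lemma exists_neg [IsGalois ℚ K] {x : K} {n : ℕ} (hn : ¬ IsSquare n) (hx : x ^ 2 = n) :
    ∃ g : K ≃ₐ[ℚ] K, g x = -x := by
  by_contra hc
  have h1 : ∀ g : K ≃ₐ[ℚ] K, g x = x := fun g =>
    (sqrt_or hx g).resolve_right fun h => hc ⟨g, h⟩
  have h2 : x ∈ (⊥ : IntermediateField ℚ K) := (IsGalois.mem_bot_iff_fixed x).mpr h1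
  obtain ⟨q, rfl⟩ := IntermediateField.mem_bot.mp h2
  have h3 : q ^ 2 = (n : ℚ) := by
    apply (algebraMap ℚ K).injective
    rw [map_pow, hx, map_natCast]
  apply hn
  have h4 : IsSquare ((n : ℕ) : ℚ) := ⟨q, by rw [← h3, pow_two]⟩
  exact Rat.isSquare_natCast_iff.mp h4

end char

end Pool.Agent.K9h67.EV
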