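import Mathlib
import Pool.Agent.K9h67.EV.FldA

/-!
# Fields in which a prime number splits completely
-/

set_option autoImplicit false
set_option linter.unusedSectionVars false

open NumberField Polynomial

namespace Pool.Agent.K9h67.EV

/-- the prime number `r` splits completely in the number field `k`: the minimal polynomials of all
elements of `k` are products of linear factors over `ℚ_r` -/
def SplitsAt (r : ℕ) [Fact r.Prime] (k : Type) [Field k] [NumberField k] : Prop :=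
  ∀ x : k, ((minpoly ℚ x).map (algebraMap ℚ ℚ_[r])).Splits

section

variable {r : ℕ} [Fact r.Prime]

lemma SplitsAt.sub {k K : Type} [Field k] [NumberField k] [Field K] [NumberField K]
    (i : k →ₐ[ℚ] K) (h : SplitsAt r K) : SplitsAt r k := by
  intro x
  have h1 := h (i x)
  rwa [minpoly.algHom_eq i i.injective] at h1

lemma splitsAt_rat : SplitsAt r ℚ := by
  intro x
  have h1 : ((X - C x : ℚ[X]).map (algebraMap ℚ ℚ_[r])).Splits := by
    rw [Polynomial.map_sub, map_X, map_C]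
    exact Splits.X_sub_C _
  have h2 : minpoly ℚ x ∣ X - C x := minpoly.dvd ℚ x (by simp)
  refine h1.of_dvd ?_ (Polynomial.map_dvd _ h2)
  rw [Polynomial.map_sub, map_X, map_C]
  exact X_sub_C_ne_zero _

/-- the splitting field of a polynomial with all roots in `ℚ_r` -/
lemma splitsAt_split {P : ℚ[X]} (N : Type) [Field N] [NumberField N] [P.IsSplittingField ℚ N]
    (hP : (P.map (algebraMap ℚ ℚ_[r])).Splits) : SplitsAt r N := by
  intro x
  have : Normal ℚ N := Normal.of_isSplittingField P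
  let i : N →ₐ[ℚ] ℚ_[r] := IsSplittingField.lift N P hP
  have h1 := ((inferInstance : Normal ℚ N).splits x).map (i : N →+* ℚ_[r])
  rw [Polynomial.map_map] at h1
  have h2 : ((i : N →+* ℚ_[r])).comp (algebraMap ℚ N) = algebraMap ℚ ℚ_[r] := i.comp_algebraMap
  rwa [h2] at h1

/-- elements of `ℚ_r` which are near to `1` are squares -/
lemma isSquare_of_near {y : ℚ_[r]} (hy : ‖y‖ ≤ 1) {c : ℕ} (hc : 8 * r ∣ c) :
    IsSquare (1 + (c : ℚ_[r]) * y) := by
  obtain ⟨d, rfl⟩ := hc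
  let z : ℤ_[r] := ⟨y, hy⟩
  let F : ℤ_[r][X] := X ^ 2 - C (1 + ((8 * r * d : ℕ) : ℤ_[r]) * z)
  have hr : (1 : ℝ) < r := by exact_mod_cast (Fact.out : r.Prime).one_lt
  have h1 : ‖F.aeval (1 : ℤ_[r])‖ < ‖F.derivative.aeval (1 : ℤ_[r])‖ ^ 2 := by
    have e1 : F.aeval (1 : ℤ_[r]) = -(((8 * r * d : ℕ) : ℤ_[r]) * z) := by
      simp [F]
    have e2 : F.derivative.aeval (1 : ℤ_[r]) = 2 := by
      simp [F]
      norm_num
    rw [e1, e2, norm_neg, norm_mul]
    have e3 : ‖((8 * r * d : ℕ) : ℤ_[r])‖ ≤ ‖(8 : ℤ_[r])‖ * (r : ℝ)⁻¹ := by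
      push_cast
      rw [norm_mul, norm_mul, PadicInt.norm_p]
      have := PadicInt.norm_le_one (d : ℤ_[r])
      have h0 : 0 ≤ ‖(8 : ℤ_[r])‖ * (r : ℝ)⁻¹ := by positivity
      nlinarith
    have e4 : ‖(8 : ℤ_[r])‖ ≤ ‖(2 : ℤ_[r])‖ ^ 2 := by
      have : (8 : ℤ_[r]) = 2 * 2 ^ 2 := by norm_num
      rw [this, norm_mul, norm_pow]
      have h2 := PadicInt.norm_le_one (2 : ℤ_[r])
      have h3 := sq_nonneg ‖(2 : ℤ_[r])‖
      nlinarith
    have e5 : 0 < ‖(2 : ℤ_[r])‖ ^ 2 := by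
      have : (2 : ℤ_[r]) ≠ 0 := two_ne_zero
      positivity
    have e6 : ‖z‖ ≤ 1 := PadicInt.norm_le_one z
    calc ‖((8 * r * d : ℕ) : ℤ_[r])‖ * ‖z‖ ≤ ‖((8 * r * d : ℕ) : ℤ_[r])‖ * 1 :=
          mul_le_mul_of_nonneg_left e6 (norm_nonneg _)
      _ ≤ ‖(8 : ℤ_[r])‖ * (r : ℝ)⁻¹ := by rwa [mul_one]
      _ ≤ ‖(2 : ℤ_[r])‖ ^ 2 * (r : ℝ)⁻¹ :=
          mul_le_mul_of_nonneg_right e4 (by positivity)
      _ < ‖(2 : ℤ_[r])‖ ^ 2 := by
          have h2 : (r : ℝ)⁻¹ < 1 := inv_lt_one_of_one_lt₀ hr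
          nlinarith
  obtain ⟨w, hw, -⟩ := hensels_lemma h1
  have h2 : w ^ 2 = 1 + ((8 * r * d : ℕ) : ℤ_[r]) * z := by
    have h3 : F.aeval w = w ^ 2 - (1 + ((8 * r * d : ℕ) : ℤ_[r]) * z) := by
      simp [F]
    rw [h3] at hw
    exact sub_eq_zero.mp hw
  refine ⟨(w : ℚ_[r]), ?_⟩
  have h3 := congrArg (fun x : ℤ_[r] => (x : ℚ_[r])) h2
  push_cast at h3
  rw [← pow_two, h3]
  push_cast
  rfl

lemma splits_comp_sq {L : Type} [Field L] {f : L[X]} (hf : f.Splits)
    (h : ∀ a, f.IsRoot a → IsSquare a) : (f.comp (X ^ 2)).Splits := by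
  by_cases h0 : f = 0
  · rw [h0, zero_comp]
    exact Splits.zero
  have key : ∀ s : Multiset L, (∀ a ∈ s, IsSquare a) →
      (((s.map fun a => X - C a).prod).comp (X ^ 2)).Splits := by
    intro s
    induction s using Multiset.induction_on with
    | empty =>
      intro _
      rw [Multiset.map_zero, Multiset.prod_zero, one_comp]
      exact Splits.one
    | cons a s ih =>
      intro hs
      rw [Multiset.map_cons, Multiset.prod_cons, mul_comp, sub_comp, X_comp, C_comp]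
      obtain ⟨z, hz⟩ := hs a (Multiset.mem_cons_self a s)
      have h1 : (X ^ 2 - C a : L[X]) = (X - C z) * (X + C z) := by
        rw [hz, C_mul]
        ring
      rw [h1]
      exact ((Splits.X_sub_C z).mul (Splits.X_add_C z)).mul
        (ih fun a ha => hs a (Multiset.mem_cons_of_mem ha))
  rw [hf.eq_prod_roots, mul_comp, C_comp]
  exact (Splits.C _).mul (key _ fun a ha => h a ((mem_roots h0).mp ha))

/-- elements of a field in which `r` splits completely -/
lemma exists_padic {N : Type} [Field N] [NumberField N] (h : SplitsAt r N) (x : N) {z : ℚ_[r]}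
    (hz : aeval z (minpoly ℚ x) = 0) : ∃ ψ : N →ₐ[ℚ] ℚ_[r], ψ x = z := by
  have h1 : z ∈ (minpoly ℚ x).rootSet ℚ_[r] := by
    rw [mem_rootSet]
    exact ⟨minpoly.ne_zero (Algebra.IsIntegral.isIntegral x), hz⟩
  rw [← Algebra.IsAlgebraic.range_eval_eq_rootSet_minpoly_of_splits ℚ_[r] h x] at h1
  obtain ⟨ψ, hψ⟩ := h1
  exact ⟨ψ, hψ⟩

lemma norm_le_one_of_integral {y : ℚ_[r]} (hy : IsIntegral ℤ y) : ‖y‖ ≤ 1 := by
  have h1 : IsIntegral ℤ_[r] y := hy.tower_top
  obtain ⟨z, rfl⟩ := IsIntegrallyClosed.isIntegral_iff.mp h1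
  exact PadicInt.norm_le_one z

/-- the elements of the form `1 + c x` have square roots in `ℚ_r` -/
lemma isSquare_root {N : Type} [Field N] [NumberField N] (h : SplitsAt r N) {c : ℕ}
    (hc : 8 * r ∣ c) {b : N} {x : 𝓞 N} (hb : b = 1 + c * (x : N)) {z : ℚ_[r]}
    (hz : aeval z (minpoly ℚ b) = 0) : IsSquare z := by
  obtain ⟨ψ, rfl⟩ := exists_padic h b hz
  rw [hb, map_add, map_one, map_mul, map_natCast]
  refine isSquare_of_near (norm_le_one_of_integral ?_) hc
  exact (RingOfIntegers.isIntegral_coe x).map (ψ : N →+* ℚ_[r]).toIntAlgHom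

/-- natural numbers congruent to `1` have square roots in `ℚ_r` -/
lemma isSquare_nat {c l : ℕ} (hc : 8 * r ∣ c) (hl : l ≡ 1 [MOD c]) : IsSquare ((l : ℕ) : ℚ_[r]) := by
  have h1 : (c : ℤ) ∣ (l : ℤ) - 1 := by
    have := (Nat.modEq_iff_dvd.mp hl.symm)
    exact_mod_cast this
  obtain ⟨d, hd⟩ := h1
  have h2 : ((l : ℕ) : ℚ_[r]) = 1 + (c : ℚ_[r]) * (d : ℚ_[r]) := by
    have h3 : (l : ℤ) = 1 + c * d := by linarith
    have h4 := congrArg (fun n : ℤ => (n : ℚ_[r])) h3
    push_cast at h4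
    exact h4
  rw [h2]
  exact isSquare_of_near (Padic.norm_int_le_one d) hc

end

/-- totally real fields in which all primes of `S` split completely -/
def TestField (S : Finset ℕ) (k : Type) [Field k] [NumberField k] : Prop :=
  IsTotallyReal k ∧ ∀ r ∈ S, ∀ _ : Fact r.Prime, SplitsAt r k

lemma TestField.sub {S : Finset ℕ} {k K : Type} [Field k] [NumberField k] [Field K] [NumberField K]
    (i : k →ₐ[ℚ] K) (h : TestField S K) : TestField S k := by
  refine ⟨?_, fun r hr _ => (h.2 r hr _).sub i⟩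
  have := h.1
  let := i.toRingHom.toAlgebra
  exact IsTotallyReal.of_algebra k K

lemma testField_rat (S : Finset ℕ) : TestField S ℚ := ⟨inferInstance, fun _ _ _ => splitsAt_rat⟩

end Pool.Agent.K9h67.EV
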