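import Mathlib
import Pool.Agent.K9h67.EV.Elt
import Pool.Agent.K9h67.EV.Pad

/-!
# Galois extensions with many square roots
-/

set_option autoImplicit false
set_option linter.unusedSectionVars false

open NumberField Polynomial

namespace Pool.Agent.K9h67.EV

lemma im_zero_of_sq {z w : ℂ} (h : z ^ 2 = w) (h1 : w.im = 0) (h2 : 0 < w.re) : z.im = 0 := by
  have h3 := congrArg Complex.im h
  have h4 := congrArg Complex.re h
  rw [pow_two, Complex.mul_im] at h3
  rw [pow_two, Complex.mul_re] at h4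
  by_contra h5
  have h6 : z.re = 0 := by
    have h7 : z.re * z.im = 0 := by linarith
    exact (mul_eq_zero.mp h7).resolve_right h5
  rw [h6] at h4
  have h7 := mul_self_nonneg z.im
  linarith

/-- `P (p (X²)) (X² - l₁) (X² - l₂)` -/
noncomputable def QQ (P p : ℚ[X]) (l₁ l₂ : ℕ) : ℚ[X] :=
  P * p.comp (X ^ 2) * ((X ^ 2 - C (l₁ : ℚ)) * (X ^ 2 - C (l₂ : ℚ)))

lemma aeval_QQ {A : Type} [Field A] [Algebra ℚ A] (P p : ℚ[X]) (l₁ l₂ : ℕ) (x : A) :
    aeval x (QQ P p l₁ l₂) = aeval x P * aeval (x ^ 2) p * ((x ^ 2 - l₁) * (x ^ 2 - l₂)) := by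
  simp [QQ, aeval_comp]

lemma X2_ne (c : ℚ) : (X ^ 2 - C c : ℚ[X]) ≠ 0 := X_pow_sub_C_ne_zero two_pos c

lemma QQ_ne {P p : ℚ[X]} (hP : P ≠ 0) (hp : p ≠ 0) (l₁ l₂ : ℕ) : QQ P p l₁ l₂ ≠ 0 := by
  refine mul_ne_zero (mul_ne_zero hP ?_) (mul_ne_zero (X2_ne _) (X2_ne _))
  intro h
  rw [comp_eq_zero_iff] at h
  rcases h with h | ⟨-, h⟩
  · exact hp h
  · have h1 := congrArg natDegree h
    rw [natDegree_pow, natDegree_X, natDegree_C] at h1
    omega

lemma exists_sqrt {K : Type} [Field K] {Q : K[X]} (hQ : Q.Splits) (hQ0 : Q ≠ 0) {a : K}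
    (h : (X ^ 2 - C a) ∣ Q) : ∃ x : K, x ^ 2 = a := by
  have h1 : (X ^ 2 - C a).Splits := hQ.of_dvd hQ0 h
  obtain ⟨x, hx⟩ := h1.exists_eval_eq_zero (by rw [degree_X_pow_sub_C two_pos]; norm_num)
  refine ⟨x, ?_⟩
  rw [eval_sub, eval_pow, eval_X, eval_C] at hx
  exact sub_eq_zero.mp hx

/-- a Galois extension in the class which contains two given fields of the class -/
theorem exists_normal {S : Finset ℕ} (k k' : Type) [Field k] [NumberField k] (hk : TestField S k)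
    [Field k'] [NumberField k'] (hk' : TestField S k') : ∃ (N : Type) (_ : Field N) (_ : NumberField N)
      (_ : IsGalois ℚ N), TestField S N ∧ Nonempty (k →ₐ[ℚ] N) ∧ Nonempty (k' →ₐ[ℚ] N) := by
  have := hk.1
  have := hk'.1
  let pb := Field.powerBasisOfFiniteOfSeparable ℚ k
  let pb' := Field.powerBasisOfFiniteOfSeparable ℚ k'
  obtain ⟨N, _, _, hN⟩ := exists_splitting (minpoly ℚ pb.gen * minpoly ℚ pb'.gen)
  have hNg : IsGalois ℚ N := isGalois_split (minpoly ℚ pb.gen * minpoly ℚ pb'.gen) N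
  have hNr : IsTotallyReal N := totallyReal_split (minpoly ℚ pb.gen * minpoly ℚ pb'.gen) N
    (fun z hz => by
      rw [map_mul, mul_eq_zero] at hz
      rcases hz with hz | hz
      · obtain ⟨φ, rfl, h⟩ := im_eq_zero_of_minpoly pb.gen hz
        exact h _
      · obtain ⟨φ, rfl, h⟩ := im_eq_zero_of_minpoly pb'.gen hz
        exact h _)
  have hP0 : minpoly ℚ pb.gen ≠ 0 := minpoly.ne_zero (Algebra.IsIntegral.isIntegral _)
  have hP0' : minpoly ℚ pb'.gen ≠ 0 := minpoly.ne_zero (Algebra.IsIntegral.isIntegral _)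
  have hsp := IsSplittingField.splits N (minpoly ℚ pb.gen * minpoly ℚ pb'.gen)
  have hQ0' : (minpoly ℚ pb.gen * minpoly ℚ pb'.gen).map (algebraMap ℚ N) ≠ 0 :=
    (Polynomial.map_ne_zero_iff (algebraMap ℚ N).injective).mpr (mul_ne_zero hP0 hP0')
  have hNp : ∀ r ∈ S, ∀ _ : Fact r.Prime, SplitsAt r N := by
    intro r hr _
    refine splitsAt_split (P := minpoly ℚ pb.gen * minpoly ℚ pb'.gen) N ?_
    rw [Polynomial.map_mul]
    exact (hk.2 r hr _ _).mul (hk'.2 r hr _ _)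
  refine ⟨N, inferInstance, inferInstance, hNg, ⟨hNr, hNp⟩, ?_, ?_⟩
  · have hspP : ((minpoly ℚ pb.gen).map (algebraMap ℚ N)).Splits := by
      refine hsp.of_dvd hQ0' ?_
      rw [Polynomial.map_mul]
      exact dvd_mul_right _ _
    obtain ⟨y, hy⟩ := hspP.exists_eval_eq_zero (by
      rw [degree_map]
      exact (minpoly.degree_pos (Algebra.IsIntegral.isIntegral _)).ne')
    rw [eval_map_algebraMap] at hy
    exact ⟨pb.lift y hy⟩
  · have hspP : ((minpoly ℚ pb'.gen).map (algebraMap ℚ N)).Splits := by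
      refine hsp.of_dvd hQ0' ?_
      rw [Polynomial.map_mul]
      exact dvd_mul_left _ _
    obtain ⟨y, hy⟩ := hspP.exists_eval_eq_zero (by
      rw [degree_map]
      exact (minpoly.degree_pos (Algebra.IsIntegral.isIntegral _)).ne')
    rw [eval_map_algebraMap] at hy
    exact ⟨pb'.lift y hy⟩

/-- Galois extensions `K` of `N` with square roots of the conjugates of `b` and of
`l₁`, `l₂` -/
structure Roots (N K : Type) [Field N] [NumberField N] [Field K] [NumberField K] [Algebra N K] where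
  /-- the element `b` -/
  b : N
  /-- square roots of the conjugates of `b` -/
  β : (N ≃ₐ[ℚ] N) → K
  /-- a natural number -/
  l₁ : ℕ
  /-- a natural number -/
  l₂ : ℕ
  /-- a square root -/
  r₁ : K
  /-- a square root -/
  r₂ : K
  hb : ∀ T : Finset (N ≃ₐ[ℚ] N), T.Nonempty → ¬ IsSquare (∏ g ∈ T, g b)
  hβ : ∀ g, β g ^ 2 = algebraMap N K (g b)
  h₁ : ¬ IsSquare (l₁ : N)
  h₂ : ¬ IsSquare (l₂ : N)
  h₁₂ : ¬ IsSquare ((l₁ : N) * l₂)
  hr₁ : r₁ ^ 2 = l₁
  hr₂ : r₂ ^ 2 = l₂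
  sq : ∀ e : K ≃ₐ[ℚ] K, (∀ n : N, e (algebraMap N K n) = algebraMap N K n) → e * e = 1

theorem exists_roots {S : Finset ℕ} (N : Type) [Field N] [NumberField N] [IsGalois ℚ N]
    (hNA : TestField S N) :
    ∃ (K : Type) (_ : Field K) (_ : NumberField K) (_ : IsGalois ℚ K) (_ : TestField S K)
      (_ : Algebra N K) (_ : IsScalarTower ℚ N K), Nonempty (Roots N K) := by
  classical
  have := hNA.1
  obtain ⟨c, hc⟩ : ∃ c : ℕ, c = 8 * ∏ r ∈ S.filter (· ≠ 0), r := ⟨_, rfl⟩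
  have hc0 : c ≠ 0 := by
    rw [hc]
    exact mul_ne_zero (by norm_num) (Finset.prod_ne_zero_iff.mpr fun r hr =>
      (Finset.mem_filter.mp hr).2)
  have hcr : ∀ r ∈ S, Fact r.Prime → 8 * r ∣ c := by
    intro r hr hp
    rw [hc]
    exact Nat.mul_dvd_mul_left 8 (Finset.dvd_prod_of_mem _
      (Finset.mem_filter.mpr ⟨hr, hp.out.ne_zero⟩))
  let pb := Field.powerBasisOfFiniteOfSeparable ℚ N
  have hP0 : minpoly ℚ pb.gen ≠ 0 := minpoly.ne_zero (Algebra.IsIntegral.isIntegral _)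
  obtain ⟨b, hb1, ⟨x₀, hx₀⟩, hb2⟩ := elt N hc0
  obtain ⟨l₁, l₂, hl₁, hl₂, hl₁c, hl₂c, h₁, h₂, h₁₂⟩ := elt_nat N hc0
  have hp0 : minpoly ℚ b ≠ 0 := minpoly.ne_zero (Algebra.IsIntegral.isIntegral _)
  -- the field `K`
  obtain ⟨Q, hQd⟩ : ∃ Q : ℚ[X], Q = QQ (minpoly ℚ pb.gen) (minpoly ℚ b) l₁ l₂ := ⟨_, rfl⟩
  have hQ0 : Q ≠ 0 := by
    rw [hQd]
    exact QQ_ne hP0 hp0 _ _
  obtain ⟨K, _, _, hK⟩ := exists_splitting Q
  have hKg : IsGalois ℚ K := isGalois_split Q K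
  have hKr : IsTotallyReal K := totallyReal_split Q K (fun z hz => by
      rw [hQd, aeval_QQ, mul_eq_zero, mul_eq_zero, mul_eq_zero] at hz
      rcases hz with (hz | hz) | (hz | hz)
      · obtain ⟨φ, rfl, h⟩ := im_eq_zero_of_minpoly pb.gen hz
        exact h _
      · obtain ⟨φ, h1, h⟩ := im_eq_zero_of_minpoly b hz
        exact im_zero_of_sq h1.symm (h b) (hb1 φ)
      · exact im_zero_of_sq (sub_eq_zero.mp hz) (by simp) (by simpa using hl₁)
      · exact im_zero_of_sq (sub_eq_zero.mp hz) (by simp) (by simpa using hl₂))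
  have hKp : ∀ r ∈ S, ∀ _ : Fact r.Prime, SplitsAt r K := by
    intro r hr _
    refine splitsAt_split (P := Q) K ?_
    have hq : ∀ l : ℕ, IsSquare ((l : ℕ) : ℚ_[r]) →
        ((X ^ 2 - C (l : ℚ) : ℚ[X]).map (algebraMap ℚ ℚ_[r])).Splits := by
      rintro l ⟨z, hz⟩
      have h1 : (X ^ 2 - C (l : ℚ) : ℚ[X]).map (algebraMap ℚ ℚ_[r]) = (X - C z) * (X + C z) := by
        rw [Polynomial.map_sub, Polynomial.map_pow, map_X, map_C, map_natCast, hz, C_mul]
        ring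
      rw [h1]
      exact (Splits.X_sub_C z).mul (Splits.X_add_C z)
    have h3 : ((minpoly ℚ b).comp (X ^ 2)).map (algebraMap ℚ ℚ_[r])
        = ((minpoly ℚ b).map (algebraMap ℚ ℚ_[r])).comp (X ^ 2) := by
      rw [Polynomial.map_comp, Polynomial.map_pow, map_X]
    rw [hQd, QQ, Polynomial.map_mul, Polynomial.map_mul, Polynomial.map_mul, h3]
    refine ((hNA.2 r hr _ _).mul (splits_comp_sq (hNA.2 r hr _ _) fun z hz => ?_)).mul
      ((hq _ (isSquare_nat (hcr r hr inferInstance) hl₁c)).mul (hq _ (isSquare_nat (hcr r hr inferInstance) hl₂c)))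
    refine isSquare_root (hNA.2 r hr _) (hcr r hr inferInstance) hx₀ ?_
    rw [IsRoot.def, eval_map_algebraMap] at hz
    exact hz
  -- embedding of `N`
  have hsp := IsSplittingField.splits K Q
  have hQ0' : Q.map (algebraMap ℚ K) ≠ 0 :=
    (Polynomial.map_ne_zero_iff (algebraMap ℚ K).injective).mpr hQ0
  have hspP : ((minpoly ℚ pb.gen).map (algebraMap ℚ K)).Splits := by
    refine hsp.of_dvd hQ0' ?_
    rw [hQd, QQ, Polynomial.map_mul, Polynomial.map_mul, mul_assoc]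
    exact dvd_mul_right _ _
  have hj : Nonempty (N →ₐ[ℚ] K) := by
    have hd : ((minpoly ℚ pb.gen).map (algebraMap ℚ K)).degree ≠ 0 := by
      rw [degree_map]
      exact (minpoly.degree_pos (Algebra.IsIntegral.isIntegral _)).ne'
    obtain ⟨y, hy⟩ := hspP.exists_eval_eq_zero hd
    refine ⟨pb.lift y ?_⟩
    rw [eval_map_algebraMap] at hy
    exact hy
  obtain ⟨j⟩ := hj
  let := j.toRingHom.toAlgebra
  have htow : IsScalarTower ℚ N K := IsScalarTower.of_algebraMap_eq' j.comp_algebraMap.symm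
  -- the square roots
  have hdvdβ : ∀ g : N ≃ₐ[ℚ] N, (X ^ 2 - C (algebraMap N K (g b))) ∣ Q.map (algebraMap ℚ K) := by
    intro g
    have h1 : (X - C (algebraMap N K (g b))) ∣ (minpoly ℚ b).map (algebraMap ℚ K) := by
      have h0 : aeval (g b) (minpoly ℚ b) = 0 := by
        have := aeval_algHom_apply (g : N →ₐ[ℚ] N) b (minpoly ℚ b)
        rw [minpoly.aeval, map_zero] at this
        exact this
      rw [dvd_iff_isRoot, IsRoot.def, eval_map_algebraMap, aeval_algebraMap_apply, h0, map_zero]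
    have h2 : (X - C (algebraMap N K (g b))).comp (X ^ 2) ∣
        ((minpoly ℚ b).map (algebraMap ℚ K)).comp (X ^ 2) := by
      obtain ⟨R, hR⟩ := h1
      rw [hR, mul_comp]
      exact dvd_mul_right _ _
    rw [sub_comp, X_comp, C_comp] at h2
    have h3 : ((minpoly ℚ b).comp (X ^ 2)).map (algebraMap ℚ K)
        = ((minpoly ℚ b).map (algebraMap ℚ K)).comp (X ^ 2) := by
      rw [Polynomial.map_comp, Polynomial.map_pow, map_X]
    rw [hQd, QQ, Polynomial.map_mul, Polynomial.map_mul, h3]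
    exact (h2.mul_left _).mul_right _
  choose β hβ using fun g => exists_sqrt hsp hQ0' (hdvdβ g)
  have hX : ∀ l : ℕ, (X ^ 2 - C ((l : ℚ)) : ℚ[X]).map (algebraMap ℚ K) = X ^ 2 - C (l : K) := by
    intro l
    rw [Polynomial.map_sub, Polynomial.map_pow, map_X, map_C, map_natCast]
  obtain ⟨r₁, hr₁⟩ : ∃ x : K, x ^ 2 = l₁ := by
    refine exists_sqrt hsp hQ0' ?_
    rw [← hX, hQd, QQ, Polynomial.map_mul, Polynomial.map_mul, Polynomial.map_mul]
    exact (dvd_mul_right _ _).mul_left _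
  obtain ⟨r₂, hr₂⟩ : ∃ x : K, x ^ 2 = l₂ := by
    refine exists_sqrt hsp hQ0' ?_
    rw [← hX, hQd, QQ, Polynomial.map_mul, Polynomial.map_mul, Polynomial.map_mul]
    exact (dvd_mul_left _ _).mul_left _
  refine ⟨K, inferInstance, inferInstance, hKg, ⟨hKr, hKp⟩, inferInstance, htow, ⟨{
    b := b, β := β, l₁ := l₁, l₂ := l₂, r₁ := r₁, r₂ := r₂, hb := hb2, hβ := hβ, h₁ := h₁, h₂ := h₂,
    h₁₂ := h₁₂, hr₁ := hr₁, hr₂ := hr₂, sq := ?_ }⟩⟩
  intro e he
  have hmem : ∀ (a : N) (y : K), aeval y (minpoly ℚ a) = 0 → ∃ c : N, algebraMap N K c = y := by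
    intro a y hy
    have h4 : y ∈ (minpoly ℚ a).rootSet K := by
      rw [mem_rootSet]
      exact ⟨minpoly.ne_zero (Algebra.IsIntegral.isIntegral a), hy⟩
    rw [← ((inferInstance : IsGalois ℚ N).to_normal.splits a).image_rootSet_algebraMap] at h4
    obtain ⟨c, -, hc⟩ := h4
    exact ⟨c, hc⟩
  have hQ : ∀ x : K, aeval x Q = 0 → ∃ c : N, algebraMap N K c = x ^ 2 := by
    intro x hx
    rw [hQd, aeval_QQ, mul_eq_zero, mul_eq_zero, mul_eq_zero] at hx
    rcases hx with (hx | hx) | (hx | hx)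
    · obtain ⟨c, hc⟩ := hmem _ x hx
      exact ⟨c ^ 2, by rw [map_pow, hc]⟩
    · exact hmem b _ hx
    · exact ⟨l₁, by rw [map_natCast]; exact (sub_eq_zero.mp hx).symm⟩
    · exact ⟨l₂, by rw [map_natCast]; exact (sub_eq_zero.mp hx).symm⟩
  have h4 : ((e * e : K ≃ₐ[ℚ] K) : K →ₐ[ℚ] K) = AlgHom.id ℚ K := by
    refine AlgHom.ext_of_adjoin_eq_top (IsSplittingField.adjoin_rootSet K Q) ?_
    intro x hx
    obtain ⟨c, hc⟩ := hQ x (aeval_eq_zero_of_mem_rootSet hx)
    have h5 : e x = x ∨ e x = -x := by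
      apply sq_eq_sq_iff_eq_or_eq_neg.mp
      rw [← map_pow, ← hc, he c]
    change e (e x) = x
    rcases h5 with h5 | h5
    · rw [h5, h5]
    · rw [h5, map_neg, h5, neg_neg]
  ext x
  exact congrArg (fun f => f x) h4

end Pool.Agent.K9h67.EV
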