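import Mathlib
import Pool.Agent.K9h67.EV.D4
import Pool.Agent.K9h67.EV.Abs
import Pool.Agent.K9h67.EV.FldC

/-!
# Quadratic extensions with the same base
-/

set_option autoImplicit false
set_option linter.unusedSectionVars false

open NumberField NumberField.InfinitePlace IntermediateField
  Pool.Agent.R389 Pool.Agent.K4H74.ST Pool.Agent.K4H74.SC Pool.Agent.K9h41.DC

namespace Pool.Agent.K9h67.EV

section tower

variable {N K : Type} [Field N] [NumberField N] [IsGalois ℚ N] [Field K] [NumberField K]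
  [IsGalois ℚ K] [Algebra N K] [IsScalarTower ℚ N K]

variable (N K) in
/-- restriction -/
noncomputable def res : (K ≃ₐ[ℚ] K) →* (N ≃ₐ[ℚ] N) := AlgEquiv.restrictNormalHom N

lemma res_apply (g : K ≃ₐ[ℚ] K) (n : N) : algebraMap N K (res N K g n) = g (algebraMap N K n) :=
  AlgEquiv.restrictNormal_commutes g N n

lemma res_surj : Function.Surjective (res N K) :=
  AlgEquiv.restrictNormalHom_surjective K

lemma mem_ker (e : K ≃ₐ[ℚ] K) :
    e ∈ (res N K).ker ↔ ∀ n : N, e (algebraMap N K n) = algebraMap N K n := by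
  rw [MonoidHom.mem_ker]
  constructor
  · intro h n
    rw [← res_apply, h]
    rfl
  · intro h
    ext n
    apply (algebraMap N K).injective
    rw [res_apply, h]
    rfl

lemma mem_range_of_fixed {γ : K} (h : ∀ e ∈ (res N K).ker, e γ = γ) :
    ∃ c : N, algebraMap N K c = γ := by
  have h1 : IsGalois N K := IsGalois.tower_top_of_isGalois ℚ N K
  have h2 : FiniteDimensional N K := FiniteDimensional.right ℚ N K
  have h3 : γ ∈ (⊥ : IntermediateField N K) := by
    rw [IsGalois.mem_bot_iff_fixed]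
    intro f
    exact h (f.restrictScalars ℚ) ((mem_ker _).mpr fun n => f.commutes n)
  exact IntermediateField.mem_bot.mp h3

lemma or_of_sq {x : K} {z : N} (h : x ^ 2 = algebraMap N K z) {g : K ≃ₐ[ℚ] K}
    (hg : res N K g z = z) : g x = x ∨ g x = -x := by
  apply sq_eq_sq_iff_eq_or_eq_neg.mp
  rw [← map_pow, h, ← res_apply, hg]

lemma exists_ker_neg {x : K} {z : N} (h : x ^ 2 = algebraMap N K z) (hz : ¬ IsSquare z) :
    ∃ e ∈ (res N K).ker, e x = -x := by
  by_contra hc
  push Not at hc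
  obtain ⟨c, hc'⟩ := mem_range_of_fixed (N := N) (γ := x) (fun e he =>
    (or_of_sq h (by rw [MonoidHom.mem_ker.mp he]; rfl)).resolve_right (hc e he))
  apply hz
  refine ⟨c, (algebraMap N K).injective ?_⟩
  rw [map_mul, hc', ← h, pow_two]

/-- the fixed field of a subgroup of the Galois group of `N` -/
lemma fixed_equiv (V : Subgroup (N ≃ₐ[ℚ] N)) :
    Nonempty (fixedField (V.comap (res N K)) ≃+* fixedField V) := by
  let f : fixedField V →+* fixedField (V.comap (res N K)) :=
    { toFun := fun x => ⟨algebraMap N K x, by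
        rw [mem_fixedField_iff]
        intro g hg
        rw [← res_apply, (mem_fixedField_iff V _).mp x.2 _ hg]⟩
      map_one' := by
        apply Subtype.ext
        simp
      map_zero' := by
        apply Subtype.ext
        simp
      map_mul' := fun x y => by
        apply Subtype.ext
        simp
      map_add' := fun x y => by
        apply Subtype.ext
        simp }
  have hf : Function.Bijective f := by
    refine ⟨f.injective, ?_⟩
    rintro ⟨y, hy⟩
    rw [mem_fixedField_iff] at hy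
    obtain ⟨c, hc⟩ := mem_range_of_fixed (N := N) (γ := y) (fun e he => hy e (by
      rw [Subgroup.mem_comap, MonoidHom.mem_ker.mp he]
      exact V.one_mem))
    refine ⟨⟨c, ?_⟩, ?_⟩
    · rw [mem_fixedField_iff]
      intro g hg
      obtain ⟨g', rfl⟩ := res_surj (N := N) (K := K) g
      apply (algebraMap N K).injective
      rw [res_apply, hc, hy g' hg]
    · apply Subtype.ext
      exact hc
  exact ⟨(RingEquiv.ofBijective f hf).symm⟩

lemma index_comap (V : Subgroup (N ≃ₐ[ℚ] N)) : (V.comap (res N K)).index = V.index :=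
  Subgroup.index_comap_of_surjective V res_surj

/-- the elements which fix `x` -/
def stb (S : Subgroup (K ≃ₐ[ℚ] K)) (x : K) : Subgroup (K ≃ₐ[ℚ] K) where
  carrier := {g | g ∈ S ∧ g x = x}
  one_mem' := ⟨S.one_mem, rfl⟩
  mul_mem' := by
    rintro a b ⟨ha, ha'⟩ ⟨hb, hb'⟩
    refine ⟨S.mul_mem ha hb, ?_⟩
    change a (b x) = x
    rw [hb', ha']
  inv_mem' := by
    rintro a ⟨ha, ha'⟩
    refine ⟨S.inv_mem ha, ?_⟩
    have h1 : a⁻¹ (a x) = x := a.symm_apply_apply x
    rwa [ha'] at h1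

lemma mem_stb {S : Subgroup (K ≃ₐ[ℚ] K)} {x : K} {g : K ≃ₐ[ℚ] K} :
    g ∈ stb S x ↔ g ∈ S ∧ g x = x := Iff.rfl

lemma stb_le (S : Subgroup (K ≃ₐ[ℚ] K)) (x : K) : stb S x ≤ S := fun _ h => h.1

/-- the stabilizer of a square root -/
lemma index_stb {S : Subgroup (K ≃ₐ[ℚ] K)} {x : K} (hx : x ≠ 0)
    (h : ∀ g ∈ S, g x = x ∨ g x = -x) (h' : ∃ g ∈ S, g x = -x) :
    (stb S x).index = 2 * S.index := by
  have hne : x ≠ -x := by
    intro h0
    apply hx
    have h1 : (2 : K) * x = 0 := by linear_combination h0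
    exact (mul_eq_zero.mp h1).resolve_left two_ne_zero
  rw [← Subgroup.relIndex_mul_index (stb_le S x)]
  congr 1
  rw [Subgroup.relIndex, Subgroup.index_eq_two_iff]
  obtain ⟨a, ha, ha'⟩ := h'
  refine ⟨⟨a, ha⟩, fun b => ?_⟩
  have h1 : (b * ⟨a, ha⟩ ∈ (stb S x).subgroupOf S) ↔ (b : K ≃ₐ[ℚ] K) x = -x := by
    rw [Subgroup.mem_subgroupOf, mem_stb]
    constructor
    · rintro ⟨-, h2⟩
      change (b : K ≃ₐ[ℚ] K) (a x) = x at h2
      rw [ha', map_neg] at h2
      exact neg_eq_iff_eq_neg.mp h2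
    · intro h2
      refine ⟨(b * ⟨a, ha⟩ : S).2, ?_⟩
      change (b : K ≃ₐ[ℚ] K) (a x) = x
      rw [ha', map_neg, h2, neg_neg]
  have h2 : (b ∈ (stb S x).subgroupOf S) ↔ (b : K ≃ₐ[ℚ] K) x = x := by
    rw [Subgroup.mem_subgroupOf, mem_stb]
    exact ⟨fun h => h.2, fun h => ⟨b.2, h⟩⟩
  rw [h1, h2]
  rcases h b b.2 with h3 | h3
  · exact Or.inr ⟨h3, fun h4 => hne (h3.symm.trans h4)⟩
  · exact Or.inl ⟨h3, fun h4 => hne (h4.symm.trans h3)⟩

/-- conjugate stabilizers -/
lemma stb_conj {S : Subgroup (K ≃ₐ[ℚ] K)} {x x' : K} {y : K ≃ₐ[ℚ] K} (hy : y ∈ S)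
    (h : y x' = x ∨ y x' = -x) (z : K ≃ₐ[ℚ] K) : z ∈ stb S x' ↔ y * z * y⁻¹ ∈ stb S x := by
  rw [mem_stb, mem_stb]
  have h1 : y * z * y⁻¹ ∈ S ↔ z ∈ S := by
    rw [S.mul_mem_cancel_right (S.inv_mem hy), S.mul_mem_cancel_left hy]
  have h2 : y⁻¹ x = x' ∨ y⁻¹ x = -x' := by
    have h3 : y⁻¹ (y x') = x' := y.symm_apply_apply x'
    rcases h with h | h
    · left
      rw [← h, h3]
    · right
      rw [h, map_neg] at h3
      rw [← h3, neg_neg]
  have h3 : (y * z * y⁻¹) x = x ↔ z x' = x' := by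
    have h4 : (y * z * y⁻¹) x = y (z (y⁻¹ x)) := rfl
    have h5 : x = y (y⁻¹ x) := (y.apply_symm_apply x).symm
    rw [h4]
    constructor
    · intro h6
      have h7 : z (y⁻¹ x) = y⁻¹ x := by
        apply y.injective
        rw [h6]
        exact h5
      rcases h2 with h2 | h2
      · rwa [h2] at h7
      · rw [h2, map_neg] at h7
        exact neg_injective h7
    · intro h6
      rcases h2 with h2 | h2
      · rw [h2, h6, ← h2]
        exact h5.symm
      · rw [h2, map_neg, h6, ← h2]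
        exact h5.symm
  rw [h1, h3]

end tower

end Pool.Agent.K9h67.EV
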