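import Mathlib
import Pool.Agent.K9h67.EV.Quad

/-!
# Quadratic extensions with the same base: the relation
-/

set_option autoImplicit false
set_option linter.unusedSectionVars false

open NumberField NumberField.InfinitePlace IntermediateField
  Pool.Agent.R389 Pool.Agent.K4H74.ST Pool.Agent.K4H74.SC Pool.Agent.K9h41.DC

namespace Pool.Agent.K9h67.EV

variable {N K : Type} [Field N] [NumberField N] [IsGalois ℚ N] [Field K] [NumberField K]
  [IsGalois ℚ K] [Algebra N K] [IsScalarTower ℚ N K]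

/-- products of conjugates of `b` -/
noncomputable def zT (R : Roots N K) (T : Finset (N ≃ₐ[ℚ] N)) : N := ∏ g ∈ T, g R.b

/-- products of the square roots -/
noncomputable def gT (R : Roots N K) (T : Finset (N ≃ₐ[ℚ] N)) : K := ∏ g ∈ T, R.β g

lemma gT_sq (R : Roots N K) (T : Finset (N ≃ₐ[ℚ] N)) : gT R T ^ 2 = algebraMap N K (zT R T) := by
  rw [gT, zT, map_prod, ← Finset.prod_pow]
  exact Finset.prod_congr rfl fun g _ => R.hβ g

lemma act_zT (R : Roots N K) {h : N ≃ₐ[ℚ] N} {T T' : Finset (N ≃ₐ[ℚ] N)}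
    (hT : ∀ g, g ∈ T ↔ h * g ∈ T') : h (zT R T) = zT R T' := by
  rw [zT, zT, map_prod]
  exact Finset.prod_equiv (Equiv.mulLeft h) hT (fun g _ => rfl)

lemma zT_ne (R : Roots N K) {T : Finset (N ≃ₐ[ℚ] N)} (hT : T.Nonempty) : zT R T ≠ 0 := by
  intro h
  exact R.hb T hT ⟨0, by rw [mul_zero]; exact h⟩

lemma gT_ne (R : Roots N K) {T : Finset (N ≃ₐ[ℚ] N)} (hT : T.Nonempty) : gT R T ≠ 0 := by
  intro h
  have h1 := gT_sq R T
  rw [h, zero_pow two_ne_zero] at h1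
  exact zT_ne R hT ((map_eq_zero (algebraMap N K)).mp h1.symm)

lemma idc_pos {G : Type} [Group G] {U : Subgroup G} {y : G} (h : y ∈ U) : idc U y = 1 := by
  rw [idc, if_pos h]

lemma idc_neg {G : Type} [Group G] {U : Subgroup G} {y : G} (h : y ∉ U) : idc U y = 0 := by
  rw [idc, if_neg h]

/-- the pointwise relation -/
lemma ptw {S A : Subgroup (K ≃ₐ[ℚ] K)} {γ₁ γ₂ : K} (h₁ : γ₁ ≠ 0) (h₂ : γ₂ ≠ 0) (hp : γ₁ + γ₂ ≠ 0)
    (hm : γ₁ - γ₂ ≠ 0) (hA : A ≤ S)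
    (hin : ∀ x ∈ A, (x γ₁ = γ₁ ∨ x γ₁ = -γ₁) ∧ (x γ₂ = γ₂ ∨ x γ₂ = -γ₂))
    (hout : ∀ x ∈ S, x ∉ A → (x γ₁ = γ₂ ∨ x γ₁ = -γ₂) ∧ (x γ₂ = γ₁ ∨ x γ₂ = -γ₁))
    (x : K ≃ₐ[ℚ] K) : idc (stb S γ₁) x + idc (stb S γ₂) x + idc (stb S (γ₁ * γ₂)) x
      = idc (stb S (γ₁ + γ₂)) x + idc (stb S (γ₁ - γ₂)) x + idc A x := by
  by_cases hS : x ∈ S
  · have pos : ∀ {z : K}, x z = z → idc (stb S z) x = 1 := fun h => idc_pos ⟨hS, h⟩
    have neg : ∀ {z : K}, x z ≠ z → idc (stb S z) x = 0 := fun h => idc_neg (fun h' => h h'.2)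
    have hmul : x (γ₁ * γ₂) = x γ₁ * x γ₂ := map_mul x _ _
    have hadd : x (γ₁ + γ₂) = x γ₁ + x γ₂ := map_add x _ _
    have hsub : x (γ₁ - γ₂) = x γ₁ - x γ₂ := map_sub x _ _
    have h12 : γ₁ * γ₂ ≠ 0 := mul_ne_zero h₁ h₂
    by_cases hxA : x ∈ A
    · obtain ⟨a | a, b | b⟩ := hin x hxA
      · rw [pos a, pos b, pos (by rw [hmul, a, b]), pos (by rw [hadd, a, b]),
          pos (by rw [hsub, a, b]), idc_pos hxA]
      · rw [pos a, neg (by rw [b]; grind), neg (by rw [hmul, a, b]; grind),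
          neg (by rw [hadd, a, b]; grind), neg (by rw [hsub, a, b]; grind), idc_pos hxA]
        norm_num
      · rw [neg (by rw [a]; grind), pos b, neg (by rw [hmul, a, b]; grind),
          neg (by rw [hadd, a, b]; grind), neg (by rw [hsub, a, b]; grind), idc_pos hxA]
        norm_num
      · rw [neg (by rw [a]; grind), neg (by rw [b]; grind), pos (by rw [hmul, a, b]; ring),
          neg (by rw [hadd, a, b]; grind), neg (by rw [hsub, a, b]; grind), idc_pos hxA]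
    · obtain ⟨a | a, b | b⟩ := hout x hS hxA
      · rw [neg (by rw [a]; grind), neg (by rw [b]; grind), pos (by rw [hmul, a, b]; ring),
          pos (by rw [hadd, a, b]; ring), neg (by rw [hsub, a, b]; grind), idc_neg hxA]
        norm_num
      · rw [neg (by rw [a]; grind), neg (by rw [b]; grind), neg (by rw [hmul, a, b]; grind),
          neg (by rw [hadd, a, b]; grind), neg (by rw [hsub, a, b]; grind), idc_neg hxA]
      · rw [neg (by rw [a]; grind), neg (by rw [b]; grind), neg (by rw [hmul, a, b]; grind),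
          neg (by rw [hadd, a, b]; grind), neg (by rw [hsub, a, b]; grind), idc_neg hxA]
      · rw [neg (by rw [a]; grind), neg (by rw [b]; grind), pos (by rw [hmul, a, b]; ring),
          neg (by rw [hadd, a, b]; grind), pos (by rw [hsub, a, b]; ring), idc_neg hxA]
        norm_num
  · have h0 : ∀ z : K, idc (stb S z) x = 0 := fun z => idc_neg (fun h => hS h.1)
    rw [h0, h0, h0, h0, h0, idc_neg (fun h => hS (hA h))]

/-- **the relation** -/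
theorem quad (R : Roots N K) (S₀ M : Subgroup (N ≃ₐ[ℚ] N)) (hM : M ≤ S₀)
    (hM2 : M.relIndex S₀ = 2) (T₀ : Finset (N ≃ₐ[ℚ] N)) (hT₀ : ∀ g, g ∈ T₀ ↔ g ∈ S₀) :
    ∃ U₁ R₁ : Subgroup (K ≃ₐ[ℚ] K), U₁.index = 4 * S₀.index ∧ R₁.index = 4 * S₀.index ∧
      ∀ g, ind U₁ (fun _ => (1 : ℂ)) g
        + ind (stb (S₀.comap (res N K)) (gT R T₀)) (fun _ => (1 : ℂ)) g
        = ind R₁ (fun _ => (1 : ℂ)) g + ind (M.comap (res N K)) (fun _ => (1 : ℂ)) g := by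
  classical
  have h2 : ∀ a ∈ S₀, ∀ b ∈ S₀, (a * b ∈ M ↔ (a ∈ M ↔ b ∈ M)) := by
    intro a ha b hb
    exact Subgroup.mul_mem_iff_of_index_two (H := M.subgroupOf S₀) hM2 (a := ⟨a, ha⟩)
      (b := ⟨b, hb⟩)
  obtain ⟨s, hs, hsM⟩ : ∃ s ∈ S₀, s ∉ M := by
    by_contra hc
    push Not at hc
    have h3 : M.relIndex S₀ = 1 := Subgroup.relIndex_eq_one.mpr hc
    omega
  let T₁ : Finset (N ≃ₐ[ℚ] N) := T₀.filter (· ∈ M)
  let T₂ : Finset (N ≃ₐ[ℚ] N) := T₀.filter (· ∉ M)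
  have m₁ : ∀ g, g ∈ T₁ ↔ g ∈ S₀ ∧ g ∈ M := fun g => by rw [Finset.mem_filter, hT₀]
  have m₂ : ∀ g, g ∈ T₂ ↔ g ∈ S₀ ∧ g ∉ M := fun g => by rw [Finset.mem_filter, hT₀]
  have n₁ : T₁.Nonempty := ⟨1, (m₁ 1).mpr ⟨S₀.one_mem, M.one_mem⟩⟩
  have n₂ : T₂.Nonempty := ⟨s, (m₂ s).mpr ⟨hs, hsM⟩⟩
  have n₀ : T₀.Nonempty := ⟨1, (hT₀ 1).mpr S₀.one_mem⟩
  have hz : zT R T₁ * zT R T₂ = zT R T₀ := Finset.prod_filter_mul_prod_filter_not _ _ _
  have hg : gT R T₁ * gT R T₂ = gT R T₀ := Finset.prod_filter_mul_prod_filter_not _ _ _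
  have a₀ : ∀ h ∈ S₀, h (zT R T₀) = zT R T₀ := fun h hh => act_zT R (fun g => by
    rw [hT₀, hT₀, S₀.mul_mem_cancel_left hh])
  have hMS : ∀ h ∈ M, h ∈ S₀ := fun h hh => hM hh
  have a₁ : ∀ h ∈ M, h (zT R T₁) = zT R T₁ := fun h hh => act_zT R (fun g => by
    rw [m₁, m₁, S₀.mul_mem_cancel_left (hM hh), M.mul_mem_cancel_left hh])
  have a₂ : ∀ h ∈ M, h (zT R T₂) = zT R T₂ := fun h hh => act_zT R (fun g => by
    rw [m₂, m₂, S₀.mul_mem_cancel_left (hM hh), M.mul_mem_cancel_left hh])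
  have b₁ : ∀ h ∈ S₀, h ∉ M → h (zT R T₁) = zT R T₂ := fun h hh hh' => act_zT R (fun g => by
    rw [m₁, m₂, S₀.mul_mem_cancel_left hh]
    constructor
    · rintro ⟨h3, h4⟩
      exact ⟨h3, fun h5 => hh' (((h2 h hh g h3).mp h5).mpr h4)⟩
    · rintro ⟨h3, h4⟩
      refine ⟨h3, ?_⟩
      by_contra h5
      exact h4 ((h2 h hh g h3).mpr ⟨fun h6 => absurd h6 hh', fun h6 => absurd h6 h5⟩))
  have b₂ : ∀ h ∈ S₀, h ∉ M → h (zT R T₂) = zT R T₁ := fun h hh hh' => act_zT R (fun g => by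
    rw [m₁, m₂, S₀.mul_mem_cancel_left hh]
    constructor
    · rintro ⟨h3, h4⟩
      exact ⟨h3, (h2 h hh g h3).mpr ⟨fun h6 => absurd h6 hh', fun h6 => absurd h6 h4⟩⟩
    · rintro ⟨h3, h4⟩
      exact ⟨h3, fun h5 => hh' (((h2 h hh g h3).mp h4).mpr h5)⟩)
  -- the square roots
  have q₁ := gT_sq R T₁
  have q₂ := gT_sq R T₂
  have q₀ := gT_sq R T₀
  have g₁ := gT_ne R n₁
  have g₂ := gT_ne R n₂
  have g₀ := gT_ne R n₀
  have hpm : gT R T₁ ^ 2 ≠ gT R T₂ ^ 2 := by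
    intro h3
    rw [q₁, q₂] at h3
    have h4 := (algebraMap N K).injective h3
    apply R.hb T₀ n₀
    refine ⟨zT R T₁, ?_⟩
    change zT R T₀ = _
    rw [← hz, ← h4]
  have hp : gT R T₁ + gT R T₂ ≠ 0 := by
    intro h3
    apply hpm
    linear_combination (gT R T₁ - gT R T₂) * h3
  have hm : gT R T₁ - gT R T₂ ≠ 0 := by
    intro h3
    apply hpm
    linear_combination (gT R T₁ + gT R T₂) * h3
  have hin : ∀ x ∈ M.comap (res N K), (x (gT R T₁) = gT R T₁ ∨ x (gT R T₁) = -gT R T₁) ∧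
      (x (gT R T₂) = gT R T₂ ∨ x (gT R T₂) = -gT R T₂) := by
    intro x hx
    exact ⟨or_of_sq q₁ (a₁ _ hx), or_of_sq q₂ (a₂ _ hx)⟩
  have hout : ∀ x ∈ S₀.comap (res N K), x ∉ M.comap (res N K) →
      (x (gT R T₁) = gT R T₂ ∨ x (gT R T₁) = -gT R T₂) ∧
      (x (gT R T₂) = gT R T₁ ∨ x (gT R T₂) = -gT R T₁) := by
    intro x hx hx'
    constructor
    · apply sq_eq_sq_iff_eq_or_eq_neg.mp
      rw [← map_pow, q₁, q₂, ← res_apply, b₁ _ hx hx']
    · apply sq_eq_sq_iff_eq_or_eq_neg.mp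
      rw [← map_pow, q₁, q₂, ← res_apply, b₂ _ hx hx']
  have hker : ∀ e ∈ (res N K).ker, e ∈ M.comap (res N K) := by
    intro e he
    rw [Subgroup.mem_comap, MonoidHom.mem_ker.mp he]
    exact M.one_mem
  have hMS' : M.comap (res N K) ≤ S₀.comap (res N K) := Subgroup.comap_mono hM
  -- an element with given signs
  obtain ⟨e, he, he1, he2⟩ : ∃ e ∈ (res N K).ker, e (gT R T₁) = gT R T₁ ∧
      e (gT R T₂) = -gT R T₂ := by
    obtain ⟨e₂, k₂, l₂⟩ := exists_ker_neg q₂ (R.hb T₂ n₂)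
    obtain ⟨e₃, k₃, l₃⟩ := exists_ker_neg q₀ (R.hb T₀ n₀)
    rw [← hg, map_mul] at l₃
    obtain ⟨a | a, b | b⟩ := hin e₃ (hker e₃ k₃)
    · exfalso
      rw [a, b] at l₃
      have h3 : (2 : K) * (gT R T₁ * gT R T₂) = 0 := by linear_combination l₃
      exact mul_ne_zero two_ne_zero (mul_ne_zero g₁ g₂) h3
    · exact ⟨e₃, k₃, a, b⟩
    · obtain ⟨c | c, -⟩ := hin e₂ (hker e₂ k₂)
      · exact ⟨e₂, k₂, c, l₂⟩
      · refine ⟨e₂ * e₃, mul_mem k₂ k₃, ?_, ?_⟩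
        · change e₂ (e₃ _) = _
          rw [a, map_neg, c, neg_neg]
        · change e₂ (e₃ _) = _
          rw [b, l₂]
    · exfalso
      rw [a, b] at l₃
      have h3 : (2 : K) * (gT R T₁ * gT R T₂) = 0 := by linear_combination l₃
      exact mul_ne_zero two_ne_zero (mul_ne_zero g₁ g₂) h3
  obtain ⟨y, hy⟩ := res_surj (N := N) (K := K) s
  have hyS : y ∈ S₀.comap (res N K) := by
    rw [Subgroup.mem_comap, hy]
    exact hs
  have hyM : y ∉ M.comap (res N K) := by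
    rw [Subgroup.mem_comap, hy]
    exact hsM
  have hMi : M.index = 2 * S₀.index := by
    rw [← Subgroup.relIndex_mul_index hM, hM2]
  -- the first stabilizer
  have hU : stb (S₀.comap (res N K)) (gT R T₁) = stb (M.comap (res N K)) (gT R T₁) := by
    ext x
    rw [mem_stb, mem_stb]
    refine ⟨fun h => ⟨?_, h.2⟩, fun h => ⟨hMS' h.1, h.2⟩⟩
    by_contra h3
    rcases (hout x h.1 h3).1 with h4 | h4
    · rw [h.2] at h4
      exact hm (by rw [← h4, sub_self])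
    · rw [h.2] at h4
      exact hp (by rw [h4, neg_add_cancel])
  obtain ⟨e₁, k₁, l₁⟩ := exists_ker_neg q₁ (R.hb T₁ n₁)
  obtain ⟨e₃, k₃, l₃⟩ := exists_ker_neg q₀ (R.hb T₀ n₀)
  have hr := d4 (U₁ := stb (S₀.comap (res N K)) (gT R T₁))
    (U₂ := stb (S₀.comap (res N K)) (gT R T₂))
    (C := stb (S₀.comap (res N K)) (gT R T₁ * gT R T₂))
    (R₁ := stb (S₀.comap (res N K)) (gT R T₁ + gT R T₂))
    (R₂ := stb (S₀.comap (res N K)) (gT R T₁ - gT R T₂))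
    (A := M.comap (res N K)) (s := S₀.index) (y := y) (y' := e)
    (ptw g₁ g₂ hp hm hMS' hin hout)
    (stb_conj hyS (hout y hyS hyM).2)
    (stb_conj (hMS' (hker e he)) (Or.inl (by rw [map_sub, he1, he2, sub_neg_eq_add])))
    (by
      rw [hU, index_stb g₁ (fun g hg => (hin g hg).1) ⟨e₁, hker e₁ k₁, l₁⟩, index_comap, hMi]
      ring)
    (by
      rw [hg, index_stb g₀ (fun g hg => or_of_sq q₀ (a₀ _ hg)) ⟨e₃, hMS' (hker e₃ k₃), l₃⟩,
        index_comap])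
    (by rw [index_comap, hMi])
  rw [hg] at hr
  refine ⟨_, _, ?_, hr.1, hr.2⟩
  rw [hU, index_stb g₁ (fun g hg => (hin g hg).1) ⟨e₁, hker e₁ k₁, l₁⟩, index_comap, hMi]
  ring

end Pool.Agent.K9h67.EV
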