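import Mathlib
import Pool.Agent.K9h67.EV.QuadB

/-!
# The values of quadratic extensions with the same base
-/

set_option autoImplicit false
set_option linter.unusedSectionVars false

open NumberField NumberField.InfinitePlace IntermediateField
  Pool.Agent.R389 Pool.Agent.K4H74.ST Pool.Agent.K4H74.SC Pool.Agent.K9h41.DC

namespace Pool.Agent.K9h67.EV

variable {A : Type} [CommGroup A] (F : ArtinFn A)

/-- the values of the fields of the class of a degree divisible by `2 ^ j` -/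
def HJ (S : Finset ℕ) (j : ℕ) (u : A) : Prop :=
  ∀ (k : Type) [Field k] [NumberField k], TestField S k → 2 ^ j ∣ Module.finrank ℚ k →
    F.v k = u ^ (Module.finrank ℚ k / 2 ^ j)

variable {F}

lemma HJ.index {S : Finset ℕ} {j : ℕ} {u : A} (h : HJ F S j u) {K : Type} [Field K]
    [NumberField K] [IsGalois ℚ K] (hK : TestField S K) {U : Subgroup (K ≃ₐ[ℚ] K)} {t : ℕ}
    (hU : U.index = 2 ^ j * t) : F.v (fixedField U) = u ^ t := by
  have h1 : Module.finrank ℚ (fixedField U) = 2 ^ j * t := by rw [finrank_fixed, hU]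
  rw [h (fixedField U) (hK.sub (fixedField U).val) (by rw [h1]; exact dvd_mul_right _ _), h1,
    Nat.mul_div_cancel_left _ (pow_pos two_pos j)]

section tower

variable {N K : Type} [Field N] [NumberField N] [IsGalois ℚ N] [Field K] [NumberField K]
  [IsGalois ℚ K] [Algebra N K] [IsScalarTower ℚ N K]

lemma v_comap (V : Subgroup (N ≃ₐ[ℚ] N)) :
    F.v (fixedField (V.comap (res N K))) = F.v (fixedField V) := by
  obtain ⟨e⟩ := fixed_equiv (K := K) V
  exact F.iso _ _ e

lemma quad_v {S : Finset ℕ} (hK : TestField S K) (R : Roots N K) {j : ℕ} {u : A}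
    (H : HJ F S (j + 1) u) {S₀ M : Subgroup (N ≃ₐ[ℚ] N)} (hM : M ≤ S₀) (hM2 : M.relIndex S₀ = 2)
    {T₀ : Finset (N ≃ₐ[ℚ] N)} (hT₀ : ∀ g, g ∈ T₀ ↔ g ∈ S₀) {t : ℕ} (ht : M.index = 2 ^ j * t) :
    F.v (fixedField M) = F.v (fixedField (stb (S₀.comap (res N K)) (gT R T₀))) := by
  obtain ⟨U₁, R₁, hU, hR, h⟩ := quad R S₀ M hM hM2 T₀ hT₀
  have h4 : 4 * S₀.index = 2 ^ (j + 1) * t := by
    have h5 : M.index = 2 * S₀.index := by rw [← Subgroup.relIndex_mul_index hM, hM2]
    rw [pow_succ, mul_assoc, mul_comm 2 t, ← mul_assoc, ← ht, h5]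
    ring
  have h1 := (HV.ind (F := F) U₁).add (HV.ind (stb (S₀.comap (res N K)) (gT R T₀)))
  have h2 := (HV.ind (F := F) R₁).add (HV.ind (M.comap (res N K)))
  have h3 : ind U₁ (fun _ => (1 : ℂ))
      + ind (stb (S₀.comap (res N K)) (gT R T₀)) (fun _ => (1 : ℂ))
      = ind R₁ (fun _ => (1 : ℂ)) + ind (M.comap (res N K)) (fun _ => (1 : ℂ)) := funext h
  rw [h3] at h1
  have h5 := h1.unique h2
  rw [H.index hK (hU.trans h4), H.index hK (hR.trans h4), v_comap] at h5
  exact (mul_left_cancel h5).symm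

end tower

/-- two subgroups of index two in the same group -/
theorem quad_eq {N : Type} [Field N] [NumberField N] [IsGalois ℚ N] {S : Finset ℕ}
    (hN : TestField S N) {j : ℕ} {u : A} (H : HJ F S (j + 1) u) {S₀ M M' : Subgroup (N ≃ₐ[ℚ] N)} (hM : M ≤ S₀)
    (hM2 : M.relIndex S₀ = 2) (hM' : M' ≤ S₀) (hM2' : M'.relIndex S₀ = 2) {t : ℕ}
    (ht : M.index = 2 ^ j * t) : F.v (fixedField M) = F.v (fixedField M') := by
  classical
  obtain ⟨K, _, _, _, hK, _, _, ⟨R⟩⟩ := exists_roots N hN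
  have ht' : M'.index = 2 ^ j * t := by
    rw [← ht, ← Subgroup.relIndex_mul_index hM, ← Subgroup.relIndex_mul_index hM', hM2, hM2']
  have : Fintype (N ≃ₐ[ℚ] N) := Fintype.ofFinite _
  rw [quad_v hK R H hM hM2 (T₀ := Finset.univ.filter (· ∈ S₀)) (fun g => by simp) ht,
    quad_v hK R H hM' hM2' (T₀ := Finset.univ.filter (· ∈ S₀)) (fun g => by simp) ht']

end Pool.Agent.K9h67.EV
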