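import Mathlib
import Pool.Agent.K9h67.EV.An

/-!
# Isomorphic fields have the same classes
-/

set_option autoImplicit false
set_option linter.unusedSectionVars false

open NumberField NumberField.InfinitePlace IntermediateField IsDedekindDomain Filter Topology
  Pool.Agent.R389 Pool.Agent.K4H74.ST Pool.Agent.K4H74.SC Pool.Agent.K9h41.DC

namespace Pool.Agent.K9h67.EV

section

variable {k k' : Type} [Field k] [NumberField k] [Field k'] [NumberField k']

/-- transport of the primes -/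
noncomputable def pr (e : 𝓞 k ≃+* 𝓞 k') (v : HeightOneSpectrum (𝓞 k)) :
    HeightOneSpectrum (𝓞 k') where
  asIdeal := v.asIdeal.comap (e.symm : 𝓞 k' →+* 𝓞 k)
  isPrime := by
    have := v.isPrime
    exact Ideal.comap_isPrime _ _
  ne_bot := by
    intro h
    apply v.ne_bot
    rw [eq_bot_iff]
    intro x hx
    have h1 : e x ∈ v.asIdeal.comap (e.symm : 𝓞 k' →+* 𝓞 k) := by
      rw [Ideal.mem_comap]
      simpa using hx
    rw [h, Ideal.mem_bot] at h1
    rw [Ideal.mem_bot]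
    exact (map_eq_zero_iff e e.injective).mp h1

/-- transport of the primes -/
noncomputable def prE (e : 𝓞 k ≃+* 𝓞 k') : HeightOneSpectrum (𝓞 k) ≃ HeightOneSpectrum (𝓞 k') where
  toFun := pr e
  invFun := pr e.symm
  left_inv v := by
    apply HeightOneSpectrum.ext
    ext x
    simp [pr]
  right_inv v := by
    apply HeightOneSpectrum.ext
    ext x
    change e (e.symm x) ∈ v.asIdeal ↔ x ∈ v.asIdeal
    rw [e.apply_symm_apply]

lemma absNorm_pr (e : 𝓞 k ≃+* 𝓞 k') (v : HeightOneSpectrum (𝓞 k)) :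
    Ideal.absNorm (pr e v).asIdeal = Ideal.absNorm v.asIdeal := by
  rw [Ideal.absNorm_apply, Ideal.absNorm_apply, Submodule.cardQuot_apply,
    Submodule.cardQuot_apply]
  refine (Nat.card_congr (Ideal.quotientEquiv v.asIdeal (pr e v).asIdeal e ?_).toEquiv).symm
  exact (Ideal.map_comap_of_equiv e).symm

end

section

variable {E : Type} [Field E] [CharZero E] {D : MotiveData E} {m : ℤ}
variable {k k' : Type} [Field k] [NumberField k] [Field k'] [NumberField k']

lemma exp_lg_iso (e : k ≃+* k') (ι : E →+* ℂ) {s : ℂ} (hs : 1 + (D.w : ℝ) / 2 < s.re) :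
    Complex.exp (lg D ι k s) = Complex.exp (lg D ι k' s) := by
  have h1 := hasProd_euler D ι (k := k) hs
  have h2 := hasProd_euler D ι (k := k') hs
  let e' : 𝓞 k ≃+* 𝓞 k' := RingOfIntegers.mapRingEquiv e
  rw [← (prE e').hasProd_iff] at h2
  have h3 : ((fun v => eulerFactor D ι k' v s) ∘ prE e') = fun v => eulerFactor D ι k v s := by
    funext v
    change eulerFactor D ι k' (pr e' v) s = _
    rw [eulerFactor, eulerFactor, absNorm_pr]
  rw [h3] at h2
  exact h1.unique h2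

theorem VV_iso (e : k ≃+* k') : VV D m k = VV D m k' := by
  rw [VV, VV, QuotientGroup.eq]
  have hd : discr k = discr k' := discr_eq_discr_of_ringEquiv k e
  have hf : Module.finrank ℚ k = Module.finrank ℚ k' :=
    (AlgEquiv.ofRingEquiv (f := e) fun q => by simp).toLinearEquiv.finrank_eq
  obtain ⟨u, hu, hu'⟩ := sq_ratio ((sd_sq k).trans ((congrArg (fun n : ℤ => (n : ℂ)) hd).trans
    (sd_sq k').symm))
  refine mem_SS_of_const (e := (u : E) ^ D.n) (pow_ne_zero _ (by exact_mod_cast hu))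
    (fun ι s hs => ?_)
  have h7 : (((LL D m k)⁻¹ * LL D m k' : (E →+* ℂ) → ℂ → ℂˣ) ι s : ℂ)
      = (LL D m k ι s : ℂ)⁻¹ * (LL D m k' ι s : ℂ) := by
    rw [Pi.mul_apply, Pi.mul_apply, Units.val_mul, Pi.inv_apply, Pi.inv_apply,
      Units.val_inv_eq_inv_val]
  rw [h7, LL_val, LL_val, exp_lg_iso e ι hs, hf, hu', nr_mul, map_pow, map_ratCast]
  have h8 := Complex.exp_ne_zero (lg D ι k' s)
  have h9 := nr_ne (D := D) (m := m) ι (Module.finrank ℚ k') (sqrt_ne (sd_sq k'))
  field_simp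

/-- the value of the L-function from the classes -/
theorem value_of (k : Type) [Field k] [NumberField k] [IsTotallyReal k] {d : ℕ} {V : _}
    (hV : V = VV D m k) (h : V = VV D m ℚ ^ d) {r : (E →+* ℂ) → ℂ}
    (hr : ∀ ι, HasLValue D ι ℚ m (r ι * nr D m ι 1 (sd ℚ))) :
    ∃ (e : E) (δ : ℂ), e ≠ 0 ∧ δ ^ 2 = (discr k : ℂ) ∧ ∀ ι : E →+* ℂ,
      HasLValue D ι k m (ι e * r ι ^ d * nr D m ι (Module.finrank ℚ k) δ) := by
  rw [hV, eq_comm, VV, VV, ← QuotientGroup.mk_pow, QuotientGroup.eq] at h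
  obtain ⟨e, he, h1⟩ := h
  refine ⟨e, sd k, he, sd_sq k, fun ι => ?_⟩
  obtain ⟨f, f1, f2, f3⟩ := hr ι
  obtain ⟨g, g1, g2, g3⟩ := h1 ι
  have h9 := nr_ne (D := D) (m := m) ι (Module.finrank ℚ k) (sqrt_ne (sd_sq k))
  have h10 := nr_ne (D := D) (m := m) ι 1 (sqrt_ne (sd_sq ℚ))
  refine ⟨fun s => g s * (f s / nr D m ι 1 (sd ℚ)) ^ d * nr D m ι (Module.finrank ℚ k) (sd k),
    fun s hs => ?_, fun s hs => ?_, ?_⟩
  · exact ((g1 s hs).mul (((f1 s hs).fun_div (MeromorphicAt.const _ s)).fun_pow d)).mul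
      (MeromorphicAt.const _ s)
  · have h2 : g s * (f s / nr D m ι 1 (sd ℚ)) ^ d * nr D m ι (Module.finrank ℚ k) (sd k)
        = Complex.exp (lg D ι k s) := by
      have h7 : (((LL D m ℚ ^ d)⁻¹ * LL D m k : (E →+* ℂ) → ℂ → ℂˣ) ι s : ℂ)
          = ((LL D m ℚ ι s : ℂ) ^ d)⁻¹ * (LL D m k ι s : ℂ) := by
        rw [Pi.mul_apply, Pi.mul_apply, Units.val_mul, Pi.inv_apply, Pi.inv_apply,
          Units.val_inv_eq_inv_val, Pi.pow_apply, Pi.pow_apply, Units.val_pow_eq_pow_val]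
      rw [g2 s hs, h7, LL_val, LL_val, (f2 s hs).unique (hasProd_euler D ι hs),
        Module.finrank_self]
      have h8 := Complex.exp_ne_zero (lg D ι ℚ s)
      field_simp
    change HasProd _ (g s * (f s / nr D m ι 1 (sd ℚ)) ^ d *
      nr D m ι (Module.finrank ℚ k) (sd k))
    rw [h2]
    exact hasProd_euler D ι hs
  · have h2 := (g3.mul ((f3.div_const (nr D m ι 1 (sd ℚ))).pow d)).mul_const
      (nr D m ι (Module.finrank ℚ k) (sd k))
    rwa [mul_div_cancel_right₀ _ h10] at h2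

end

end Pool.Agent.K9h67.EV
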