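import Mathlib

/-!
# Uniqueness of the meromorphic continuation to a half plane
-/

set_option autoImplicit false

open Filter Topology

namespace Pool.Agent.K9h67.EV

theorem uni {m σ : ℝ} {f g : ℂ → ℂ} (hf : ∀ s : ℂ, m ≤ s.re → MeromorphicAt f s)
    (hg : ∀ s : ℂ, m ≤ s.re → MeromorphicAt g s) (h : ∀ s : ℂ, σ < s.re → f s = g s) {s : ℂ}
    (hs : m ≤ s.re) : f =ᶠ[𝓝[≠] s] g := by
  have hU : IsPreconnected {s : ℂ | m ≤ s.re} := (convex_halfSpace_re_ge m).isPreconnected
  have hfg : MeromorphicOn (f - g) {s : ℂ | m ≤ s.re} := fun x hx => (hf x hx).sub (hg x hx)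
  by_contra hne
  have h1 : meromorphicOrderAt (f - g) s ≠ ⊤ := by
    intro h0
    rw [meromorphicOrderAt_eq_top_iff] at h0
    exact hne (h0.mono fun z hz => sub_eq_zero.mp hz)
  have hy : ((max m σ + 1 : ℝ) : ℂ) ∈ {s : ℂ | m ≤ s.re} := by
    change m ≤ (((max m σ + 1 : ℝ) : ℂ)).re
    rw [Complex.ofReal_re]
    have := le_max_left m σ
    linarith
  have h2 := hfg.meromorphicOrderAt_ne_top_of_isPreconnected hU hs hy h1
  apply h2
  rw [meromorphicOrderAt_eq_top_iff]
  have h3 : {z : ℂ | σ < z.re} ∈ 𝓝 (((max m σ + 1 : ℝ) : ℂ)) := by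
    refine (isOpen_lt continuous_const Complex.continuous_re).mem_nhds ?_
    change σ < (((max m σ + 1 : ℝ) : ℂ)).re
    rw [Complex.ofReal_re]
    have := le_max_right m σ
    linarith
  filter_upwards [nhdsWithin_le_nhds h3] with z hz
  simp [h z hz]

end Pool.Agent.K9h67.EV
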