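import Mathlib
import Pool.Agent.K9h67.EV.Iso
import Pool.Agent.K9h67.EV.Uni

/-!
# The value over the rational numbers from its `N`-th power
-/

set_option autoImplicit false
set_option linter.unusedSectionVars false

open NumberField NumberField.InfinitePlace IntermediateField IsDedekindDomain Filter Topology
  Pool.Agent.R389 Pool.Agent.K4H74.ST Pool.Agent.K4H74.SC Pool.Agent.K9h41.DC

namespace Pool.Agent.K9h67.EV

variable {E : Type} [Field E] [CharZero E] {D : MotiveData E} {m : ℤ}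

theorem root_of {N : ℕ} (hN : N ≠ 0)
    (hM : ∀ ι : E →+* ℂ, ∃ f : ℂ → ℂ, (∀ s : ℂ, (m : ℝ) ≤ s.re → MeromorphicAt f s) ∧
      ∀ s : ℂ, 1 + (D.w : ℝ) / 2 < s.re → HasProd (fun v => eulerFactor D ι ℚ v s) (f s))
    (h : VV D m ℚ ^ N = 1) :
    ∃ (δ : E) (r : (E →+* ℂ) → ℂ), δ ≠ 0 ∧ (∀ ι, r ι ^ N = ι δ) ∧
      ∀ ι, HasLValue D ι ℚ m (r ι * nr D m ι 1 (sd ℚ)) := by
  rw [VV, ← QuotientGroup.mk_pow, QuotientGroup.eq_one_iff] at h
  obtain ⟨e, he, h1⟩ := h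
  have h2 : ∀ ι : E →+* ℂ, ∃ r : ℂ, r ^ N = ι e ∧ HasLValue D ι ℚ m (r * nr D m ι 1 (sd ℚ)) := by
    intro ι
    obtain ⟨f, f1, f2⟩ := hM ι
    obtain ⟨g, g1, g2, g3⟩ := h1 ι
    have h10 := nr_ne (D := D) (m := m) ι 1 (sqrt_ne (sd_sq ℚ))
    let F : ℂ → ℂ := fun s => f s / nr D m ι 1 (sd ℚ)
    have hF : ∀ s : ℂ, (m : ℝ) ≤ s.re → MeromorphicAt F s := fun s hs =>
      (f1 s hs).fun_div (MeromorphicAt.const _ s)
    have hm : (m : ℝ) ≤ ((m : ℂ)).re := by simp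
    have h3 : (F ^ N) =ᶠ[𝓝[≠] (m : ℂ)] g := by
      refine uni (m := m) (σ := 1 + (D.w : ℝ) / 2) (fun s hs => (hF s hs).pow N) g1
        (fun s hs => ?_) hm
      rw [g2 s hs, Pi.pow_apply, Pi.pow_apply, Pi.pow_apply, Units.val_pow_eq_pow_val, LL_val,
        Module.finrank_self]
      change (f s / _) ^ N = _
      rw [(f2 s hs).unique (hasProd_euler D ι hs)]
    have h4 : Tendsto (F ^ N) (𝓝[≠] (m : ℂ)) (𝓝 (ι e)) := g3.congr' h3.symm
    have h5 : meromorphicOrderAt (F ^ N) (m : ℂ) = 0 :=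
      (tendsto_ne_zero_iff_meromorphicOrderAt_eq_zero ((hF _ hm).pow N)).mp
        ⟨ι e, (map_ne_zero ι).mpr he, h4⟩
    rw [meromorphicOrderAt_pow (hF _ hm)] at h5
    have h6 : meromorphicOrderAt F (m : ℂ) = 0 := by
      rcases mul_eq_zero.mp h5 with h7 | h7
      · exact absurd (by exact_mod_cast h7) hN
      · exact h7
    obtain ⟨r, hr0, hr⟩ := (tendsto_ne_zero_iff_meromorphicOrderAt_eq_zero (hF _ hm)).mpr h6
    refine ⟨r, tendsto_nhds_unique (hr.pow N) h4, f, f1, f2, ?_⟩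
    have h7 := hr.mul_const (nr D m ι 1 (sd ℚ))
    refine h7.congr fun s => ?_
    exact div_mul_cancel₀ _ h10
  choose r hr hr' using h2
  exact ⟨e, r, he, hr, hr'⟩

end Pool.Agent.K9h67.EV
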