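import Mathlib
import Pool.Agent.K9h67.EV.Chain

/-!
# The values of the fields of a degree divisible by a power of two
-/

set_option autoImplicit false
set_option linter.unusedSectionVars false

open NumberField NumberField.InfinitePlace IntermediateField
  Pool.Agent.R389 Pool.Agent.K4H74.ST Pool.Agent.K4H74.SC Pool.Agent.K9h41.DC

namespace Pool.Agent.K9h67.EV

section tower

variable {N K : Type} [Field N] [NumberField N] [IsGalois ℚ N] [Field K] [NumberField K]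
  [IsGalois ℚ K] [Algebra N K] [IsScalarTower ℚ N K]

/-- an element of odd order which commutes with the Galois group of `K/N` is trivial -/
lemma eq_one_of_odd (R : Roots N K) {g : K ≃ₐ[ℚ] K} (hg : Odd (orderOf g))
    (hcomm : ∀ e ∈ (res N K).ker, e * g = g * e) : g = 1 := by
  classical
  have hsq : ∀ e ∈ (res N K).ker, e * e = 1 := fun e he => R.sq e ((mem_ker e).mp he)
  have hβ : R.β 1 ^ 2 = algebraMap N K R.b := R.hβ 1
  have h4 : g ∈ (res N K).ker := by
    rw [MonoidHom.mem_ker]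
    by_contra hne1
    obtain ⟨c, hc⟩ := mem_range_of_fixed (N := N) (γ := g (R.β 1) * R.β 1) (by
      intro e he
      have h6 : e (R.β 1) = R.β 1 ∨ e (R.β 1) = -R.β 1 :=
        or_of_sq hβ (by rw [MonoidHom.mem_ker.mp he]; rfl)
      have h7 : e (g (R.β 1)) = g (e (R.β 1)) := by
        have := hcomm e he
        exact congrArg (fun f : K ≃ₐ[ℚ] K => f (R.β 1)) this
      rw [map_mul, h7]
      rcases h6 with h6 | h6
      · rw [h6]
      · rw [h6, map_neg, neg_mul_neg])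
    apply R.hb {res N K g, 1} ⟨1, by simp⟩
    refine ⟨c, ?_⟩
    rw [Finset.prod_pair hne1]
    apply (algebraMap N K).injective
    rw [map_mul, map_mul, hc, res_apply]
    have h8 : algebraMap N K ((1 : N ≃ₐ[ℚ] N) R.b) = R.β 1 ^ 2 := hβ.symm
    rw [h8, ← hβ, map_pow]
    ring
  have h6 : orderOf g ∣ 2 := orderOf_dvd_of_pow_eq_one (by rw [pow_two, hsq g h4])
  have h7 : orderOf g = 1 := by
    have h8 := Nat.le_of_dvd two_pos h6
    have h9 := orderOf_pos g
    rcases hg with ⟨j, hj⟩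
    omega
  exact orderOf_eq_one_iff.mp h7

/-- two independent characters of order two -/
lemma exists_chars (R : Roots N K) : ∃ χ₁ χ₂ : (K ≃ₐ[ℚ] K) →* ℤˣ,
    (∃ e ∈ (res N K).ker, χ₁ e = -1) ∧ (∃ e ∈ (res N K).ker, χ₂ e = -1) ∧
      ∃ e ∈ (res N K).ker, χ₁ e * χ₂ e = -1 := by
  have hnz : ∀ {x : K} {l : ℕ}, ¬ IsSquare (l : N) → x ^ 2 = l → x ≠ 0 := by
    rintro x l hl hx rfl
    rw [zero_pow two_ne_zero] at hx
    have h1 : ((l : ℕ) : N) = 0 := by
      apply (algebraMap N K).injective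
      rw [map_natCast, map_zero, hx]
    exact hl ⟨0, by rw [h1, mul_zero]⟩
  have h10 := hnz R.h₁ R.hr₁
  have h20 := hnz R.h₂ R.hr₂
  obtain ⟨χ₁, hχ₁⟩ := exists_char h10 (sqrt_or R.hr₁)
  obtain ⟨χ₂, hχ₂⟩ := exists_char h20 (sqrt_or R.hr₂)
  have hne : ∀ {x : K}, x ≠ 0 → ∀ u : ℤˣ, ((u : ℤ) : K) * x = -x → u = -1 := by
    intro x hx u hu
    rcases Int.units_eq_one_or u with rfl | rfl
    · exfalso
      apply hx
      rw [Units.val_one, Int.cast_one, one_mul] at hu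
      have h1 : (2 : K) * x = 0 := by linear_combination hu
      exact (mul_eq_zero.mp h1).resolve_left two_ne_zero
    · rfl
  refine ⟨χ₁, χ₂, ?_, ?_, ?_⟩
  · obtain ⟨e, he, h⟩ := exists_ker_neg (N := N) (z := (R.l₁ : N)) (x := R.r₁)
      (by rw [R.hr₁, map_natCast]) R.h₁
    exact ⟨e, he, hne h10 _ ((hχ₁ e).symm.trans h)⟩
  · obtain ⟨e, he, h⟩ := exists_ker_neg (N := N) (z := (R.l₂ : N)) (x := R.r₂)
      (by rw [R.hr₂, map_natCast]) R.h₂
    exact ⟨e, he, hne h20 _ ((hχ₂ e).symm.trans h)⟩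
  · obtain ⟨e, he, h⟩ := exists_ker_neg (N := N) (z := (R.l₁ : N) * R.l₂) (x := R.r₁ * R.r₂)
      (by rw [mul_pow, R.hr₁, R.hr₂, map_mul, map_natCast, map_natCast]) R.h₁₂
    refine ⟨e, he, hne (mul_ne_zero h10 h20) _ ?_⟩
    rw [← h, map_mul, hχ₁ e, hχ₂ e]
    push_cast
    ring

end tower

variable {A : Type} [CommGroup A] {F : ArtinFn A}

lemma ker_le_comap {N K : Type} [Field N] [NumberField N] [IsGalois ℚ N] [Field K] [NumberField K]
    [IsGalois ℚ K] [Algebra N K] [IsScalarTower ℚ N K] (V : Subgroup (N ≃ₐ[ℚ] N)) :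
    (res N K).ker ≤ V.comap (res N K) := by
  intro e he
  rw [Subgroup.mem_comap, MonoidHom.mem_ker.mp he]
  exact V.one_mem

lemma index_of_card {G : Type} [Group G] [Finite G] {P A : Subgroup G}
    (h : 2 * Nat.card A = Nat.card P) : A.index = 2 * P.index := by
  have h1 := Subgroup.card_mul_index A
  have h2 := Subgroup.card_mul_index P
  have h3 : Nat.card A * A.index = Nat.card A * (2 * P.index) := by
    rw [h1, ← h2, ← h]
    ring
  exact Nat.eq_of_mul_eq_mul_left Nat.card_pos h3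

/-- there are fields of degree `2 ^ j` in the class -/
lemma exists_deg (S : Finset ℕ) (j : ℕ) : ∃ (k : Type) (_ : Field k) (_ : NumberField k),
    TestField S k ∧ Module.finrank ℚ k = 2 ^ j := by
  induction j with
  | zero => exact ⟨ℚ, inferInstance, inferInstance, testField_rat S, by rw [Module.finrank_self]; rfl⟩
  | succ j ih =>
    obtain ⟨k, _, _, hk, hd⟩ := ih
    obtain ⟨N, _, _, _, hN, ⟨i⟩, -⟩ := exists_normal k k hk hk
    obtain ⟨V, -, hV⟩ := exists_subgroup i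
    obtain ⟨K, _, _, _, hK, _, _, ⟨R⟩⟩ := exists_roots N hN
    obtain ⟨χ₁, χ₂, ⟨e, he, he'⟩, -, -⟩ := exists_chars R
    have h1 := index_of_card (relindex_ker (P := V.comap (res N K)) χ₁
      ⟨e, ker_le_comap V he, he'⟩)
    refine ⟨fixedField (V.comap (res N K) ⊓ χ₁.ker), inferInstance, inferInstance,
      hK.sub (fixedField (V.comap (res N K) ⊓ χ₁.ker)).val, ?_⟩
    rw [finrank_fixed, h1, index_comap, hV, hd, pow_succ]
    ring

/-- the square of the value -/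
lemma v_sq {S : Finset ℕ} {j : ℕ} {u : A} (H : HJ F S (j + 1) u) (k : Type) [Field k]
    [NumberField k] (hk₀ : TestField S k) {t : ℕ} (ht : Module.finrank ℚ k = 2 ^ j * t) :
    F.v k ^ 2 = u ^ t := by
  obtain ⟨N, _, _, _, hN, ⟨i⟩, -⟩ := exists_normal k k hk₀ hk₀
  obtain ⟨V₀, ⟨e₀⟩, hV₀⟩ := exists_subgroup i
  obtain ⟨K, _, _, _, hK, _, _, ⟨R⟩⟩ := exists_roots N hN
  obtain ⟨χ₁, χ₂, ⟨e₁, k₁, l₁⟩, ⟨e₂, k₂, l₂⟩, ⟨e₃, k₃, l₃⟩⟩ := exists_chars R
  set V : Subgroup (K ≃ₐ[ℚ] K) := V₀.comap (res N K) with hV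
  have hk : F.v k = F.v (fixedField V) := by rw [F.iso _ _ e₀, hV, v_comap]
  have hVi : V.index = 2 ^ j * t := by rw [hV, index_comap, hV₀, ht]
  have hle := ker_le_comap (K := K) V₀
  have x1 : ∃ g ∈ V, χ₁ g = -1 := ⟨e₁, hle k₁, l₁⟩
  have x2 : ∃ g ∈ V, χ₂ g = -1 := ⟨e₂, hle k₂, l₂⟩
  have x3 : ∃ g ∈ V, χ₁ g * χ₂ g = -1 := ⟨e₃, hle k₃, l₃⟩
  have x3' : ∃ g ∈ V, (χ₁ * χ₂) g = -1 := x3
  have i1 := index_of_card (relindex_ker χ₁ x1)
  have i2 := index_of_card (relindex_ker χ₂ x2)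
  have i3 := index_of_card (relindex_ker (χ₁ * χ₂) x3')
  have hb := biq x1 x2 x3
  have i4 : (V ⊓ (χ₁.ker ⊓ χ₂.ker) : Subgroup (K ≃ₐ[ℚ] K)).index = 4 * V.index := by
    have h1 := hb 1
    simp only [ind_one_one] at h1
    rw [i1, i2, i3] at h1
    push_cast at h1
    have h2 : (((V ⊓ (χ₁.ker ⊓ χ₂.ker) : Subgroup (K ≃ₐ[ℚ] K)).index : ℕ) : ℂ)
        = ((4 * V.index : ℕ) : ℂ) := by
      push_cast
      linear_combination h1
    exact_mod_cast h2
  have w1 : F.v (fixedField (V ⊓ χ₁.ker)) = u ^ t := H.index hK (by rw [i1, hVi, pow_succ]; ring)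
  have w2 : F.v (fixedField (V ⊓ χ₂.ker)) = u ^ t := H.index hK (by rw [i2, hVi, pow_succ]; ring)
  have w3 : F.v (fixedField (V ⊓ (χ₁ * χ₂).ker)) = u ^ t :=
    H.index hK (by rw [i3, hVi, pow_succ]; ring)
  have w4 : F.v (fixedField (V ⊓ (χ₁.ker ⊓ χ₂.ker))) = u ^ (2 * t) :=
    H.index hK (by rw [i4, hVi, pow_succ]; ring)
  have h1 := (HV.ind (F := F) V).add (HV.ind V)
  have h2 := (((HV.ind (F := F) (V ⊓ χ₁.ker)).add (HV.ind (V ⊓ χ₂.ker))).add
    (HV.ind (V ⊓ (χ₁ * χ₂).ker))).sub (HV.ind (V ⊓ (χ₁.ker ⊓ χ₂.ker)))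
  have h3 : ind V (fun _ => (1 : ℂ)) + ind V (fun _ => (1 : ℂ))
      = ind (V ⊓ χ₁.ker) (fun _ => (1 : ℂ)) + ind (V ⊓ χ₂.ker) (fun _ => (1 : ℂ))
        + ind (V ⊓ (χ₁ * χ₂).ker) (fun _ => (1 : ℂ))
        - ind (V ⊓ (χ₁.ker ⊓ χ₂.ker)) (fun _ => (1 : ℂ)) := by
    funext g
    have := hb g
    rw [two_mul] at this
    exact this
  rw [h3] at h1
  have h4 := h1.unique h2
  rw [w1, w2, w3, w4] at h4
  rw [hk, pow_two, h4, two_mul, pow_add]
  group

/-- **Solomon's theorem** for the values -/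
theorem sol {N K : Type} [Field N] [NumberField N] [IsGalois ℚ N] [Field K] [NumberField K]
    [IsGalois ℚ K] [Algebra N K] [IsScalarTower ℚ N K] (R : Roots N K) {S : Finset ℕ}
    (hK : TestField S K) {j : ℕ} {u : A} (H : HJ F S (j + 1) u) (hj : 2 ^ j ∣ Nat.card (K ≃ₐ[ℚ] K)) :
    ∃ (w : A) (q : ℕ), ∀ V : Subgroup (K ≃ₐ[ℚ] K), (res N K).ker ≤ V → ∀ t : ℕ, Odd t →
      V.index = 2 ^ j * t → ∃ n : ℤ, F.v (fixedField V) = w * u ^ n ∧ (t : ℤ) = q + 2 * n := by
  classical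
  have : Fintype (Subgroup (K ≃ₐ[ℚ] K)) := Fintype.ofFinite _
  obtain ⟨α, q, hq, hα⟩ := Nat.exists_eq_two_pow_mul_odd
    (Nat.card_pos (α := K ≃ₐ[ℚ] K)).ne'
  have hjα : j ≤ α := by
    rw [hα] at hj
    have h1 : (2 ^ j).Coprime q := (Nat.coprime_two_left.mpr hq).pow_left j
    exact (Nat.pow_dvd_pow_iff_le_right (by norm_num)).mp (h1.dvd_of_dvd_mul_right hj)
  have htop : Nat.card (⊤ : Subgroup (K ≃ₐ[ℚ] K)) = 2 ^ α * q := by
    rw [← hα]
    exact Nat.card_congr Subgroup.topEquiv.toEquiv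
  obtain ⟨Q₀, -, -, hQ₀⟩ := exists_between (Q := (⊥ : Subgroup (K ≃ₐ[ℚ] K))) (P := ⊤) bot_le
    (a := 0) (b := α - j) (by simp) (Nat.zero_le _) (by
      rw [htop]
      exact (pow_dvd_pow 2 (Nat.sub_le α j)).mul_right q)
  have hidx : ∀ Q : Subgroup (K ≃ₐ[ℚ] K), Nat.card Q = 2 ^ (α - j) → Q.index = 2 ^ j * q := by
    intro Q hQ
    have h1 := Subgroup.card_mul_index Q
    rw [hα, hQ] at h1
    have h2 : 2 ^ (α - j) * Q.index = 2 ^ (α - j) * (2 ^ j * q) := by
      rw [h1, ← mul_assoc, ← pow_add, Nat.sub_add_cancel hjα]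
    exact Nat.eq_of_mul_eq_mul_left (pow_pos two_pos _) h2
  have hQi := hidx Q₀ hQ₀
  have hw2 : F.v (fixedField Q₀) ^ 2 = u ^ q := v_sq H _ (hK.sub (fixedField Q₀).val)
    (by rw [finrank_fixed, hQi])
  refine ⟨F.v (fixedField Q₀), q, fun V hV t ht hVi => ?_⟩
  obtain ⟨c, hc1, hc2, hc3, -⟩ := exists_coeff' V
  have key : ∀ U : Subgroup (K ≃ₐ[ℚ] K), ∃ a b : ℤ,
      F.v (fixedField U) ^ c U = F.v (fixedField Q₀) ^ a * u ^ b ∧
        c U * U.index = 2 ^ j * (a * q + 2 * b) := by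
    intro U
    by_cases h0 : c U = 0
    · exact ⟨0, 0, by rw [h0]; simp, by rw [h0]; simp⟩
    obtain ⟨⟨p, hp, c₀, hcop, hn, hqq⟩, hUV⟩ := hc1 U h0
    have h1 : U.index = U.relIndex V * V.index := (Subgroup.relIndex_mul_index hUV).symm
    rcases Nat.even_or_odd (U.relIndex V) with h2 | h2
    · obtain ⟨s, hs⟩ := h2
      have h3 : U.index = 2 ^ (j + 1) * (s * t) := by
        rw [h1, hVi, hs, pow_succ]
        ring
      refine ⟨0, (s * t : ℕ) * c U, ?_, ?_⟩
      · rw [H.index hK h3, zpow_zero, one_mul, ← zpow_natCast, ← zpow_mul]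
      · rw [h3]
        push_cast
        ring
    · have h3 : (res N K).ker ≤ U := le_of_odd_rel (MonoidHom.normal_ker _)
        (fun e he => R.sq e ((mem_ker e).mp he)) hV h2
      have h4 : IsPGroup 2 U := isPGroup_of_hyper (MonoidHom.normal_ker (res N K))
        (fun e he => R.sq e ((mem_ker e).mp he)) (fun g hg hg' => eq_one_of_odd R hg hg') h3 hp
        hcop hn hqq
      obtain ⟨x, hx⟩ := IsPGroup.iff_card.mp h4
      have h5 : Nat.card U = 2 ^ (α - j) := by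
        have h6 := Subgroup.card_mul_index U
        rw [hα, h1, hVi, hx] at h6
        have h7 : 2 ^ (x + j) * (U.relIndex V * t) = 2 ^ α * q := by
          rw [← h6, pow_add]
          ring
        have h8 : Odd (U.relIndex V * t) := h2.mul ht
        have h9 : x + j = α := by
          apply le_antisymm
          · have h10 : 2 ^ (x + j) ∣ 2 ^ α * q := ⟨_, h7.symm⟩
            have h11 : (2 ^ (x + j)).Coprime q := (Nat.coprime_two_left.mpr hq).pow_left _
            exact (Nat.pow_dvd_pow_iff_le_right (by norm_num)).mp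
              (h11.dvd_of_dvd_mul_right h10)
          · have h10 : 2 ^ α ∣ 2 ^ (x + j) * (U.relIndex V * t) := ⟨_, h7⟩
            have h11 : (2 ^ α).Coprime (U.relIndex V * t) :=
              (Nat.coprime_two_left.mpr h8).pow_left _
            exact (Nat.pow_dvd_pow_iff_le_right (by norm_num)).mp
              (h11.dvd_of_dvd_mul_right h10)
        rw [hx]
        congr 1
        omega
      have h6 : IsPGroup 2 Q₀ := IsPGroup.of_card hQ₀
      have h7 := two_groups hK H h6 h4 (hQ₀.trans h5.symm) hQi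
      refine ⟨c U, 0, ?_, ?_⟩
      · rw [h7, zpow_zero, mul_one]
      · rw [hidx U h5]
        push_cast
        ring
  choose a b hab hab' using key
  have h1 := F.rel K V c hc2
  rw [Finset.prod_congr rfl (fun U _ => hab U), Finset.prod_mul_distrib] at h1
  have hz : ∀ (x : A) (y : Subgroup (K ≃ₐ[ℚ] K) → ℤ), ∏ U, x ^ y U = x ^ ∑ U, y U := by
    intro x y
    have h5 : ∀ s : Finset (Subgroup (K ≃ₐ[ℚ] K)), ∏ U ∈ s, x ^ y U = x ^ ∑ U ∈ s, y U := by
      intro s
      induction s using Finset.induction_on with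
      | empty => simp
      | insert a s ha ih => rw [Finset.prod_insert ha, Finset.sum_insert ha, zpow_add, ih]
    exact h5 _
  rw [hz, hz] at h1
  have h2 : (2 : ℤ) ^ j * ((∑ U, a U) * q + 2 * ∑ U, b U) = 2 ^ j * t := by
    have h3 : ∑ U, c U * (U.index : ℤ) = V.index := by
      have h4 : ∀ U : Subgroup (K ≃ₐ[ℚ] K), fx U 1 = U.index := by
        intro U
        have h5 := ind_one_one U
        rw [ind_one] at h5
        exact_mod_cast h5
      have h5 := hc3 1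
      rw [h4] at h5
      rw [← h5]
      exact Finset.sum_congr rfl fun U _ => by rw [h4]
    rw [Finset.sum_congr rfl (fun U _ => hab' U), ← Finset.mul_sum, hVi, Finset.sum_add_distrib,
      ← Finset.sum_mul, ← Finset.mul_sum] at h3
    rw [h3]
    push_cast
    ring
  have h3 : (∑ U, a U) * q + 2 * ∑ U, b U = t :=
    mul_left_cancel₀ (pow_ne_zero j two_ne_zero) h2
  have h4 : Odd (∑ U, a U) := by
    have h5 : Odd ((∑ U, a U) * (q : ℤ)) := by
      have h6 : (∑ U, a U) * (q : ℤ) = t - 2 * ∑ U, b U := by linarith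
      rw [h6]
      exact ((Int.odd_coe_nat _).mpr ht).sub_even (even_two_mul _)
    exact (Int.odd_mul.mp h5).1
  obtain ⟨a', ha'⟩ := h4
  refine ⟨q * a' + ∑ U, b U, ?_, ?_⟩
  · rw [← h1, ha', zpow_add, zpow_one, zpow_mul, zpow_ofNat, hw2, zpow_add, zpow_mul,
      zpow_natCast]
    ac_rfl
  · rw [← h3, ha']
    ring

end Pool.Agent.K9h67.EV
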