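import Mathlib
import Pool.Agent.K9h41.DC.Nv
import Pool.Agent.K9h67.EV.Root
import Pool.Agent.K9h67.EV.Sol

/-!
# Deligne's conjecture and test fields of a degree divisible by a power of two
-/

set_option autoImplicit false
set_option linter.unusedSectionVars false

open NumberField NumberField.InfinitePlace IntermediateField IsDedekindDomain Filter Topology
  Pool.Agent.R389 Pool.Agent.K4H74.ST Pool.Agent.K4H74.SC Pool.Agent.K9h41.DC

namespace Pool.Agent.K9h67.EV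

section abs

variable {A : Type} [CommGroup A] {F : ArtinFn A}

/-- from `2 ^ (j + 1)` to `2 ^ j` -/
lemma step {S : Finset ℕ} {j : ℕ} {u : A} (H : HJ F S (j + 1) u) :
    ∃ w : A, w ^ 2 = u ∧ HJ F S j w := by
  obtain ⟨k', _, _, hk', hd'⟩ := exists_deg S j
  have hw : F.v k' ^ 2 = u := by
    rw [v_sq H k' hk' (t := 1) (by rw [hd', mul_one]), pow_one]
  refine ⟨F.v k', hw, ?_⟩
  intro k _ _ hk hdvd
  obtain ⟨t, ht⟩ := hdvd
  rw [ht, Nat.mul_div_cancel_left _ (pow_pos two_pos j)]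
  rcases Nat.even_or_odd' t with ⟨s, rfl | rfl⟩
  · have h1 : Module.finrank ℚ k = 2 ^ (j + 1) * s := by
      rw [ht, pow_succ]
      ring
    rw [H k hk (by rw [h1]; exact dvd_mul_right _ _), h1,
      Nat.mul_div_cancel_left _ (pow_pos two_pos (j + 1)), pow_mul, hw]
  · obtain ⟨N, _, _, _, hN, ⟨i⟩, ⟨i'⟩⟩ := exists_normal k k' hk hk'
    obtain ⟨V₀, ⟨e₀⟩, hV₀⟩ := exists_subgroup i
    obtain ⟨V₀', ⟨e₀'⟩, hV₀'⟩ := exists_subgroup i'
    obtain ⟨K, _, _, _, hK, _, _, ⟨R⟩⟩ := exists_roots N hN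
    have hi : (V₀.comap (res N K)).index = 2 ^ j * (2 * s + 1) := by rw [index_comap, hV₀, ht]
    have hi' : (V₀'.comap (res N K)).index = 2 ^ j * 1 := by
      rw [index_comap, hV₀', hd', mul_one]
    have hj : 2 ^ j ∣ Nat.card (K ≃ₐ[ℚ] K) := by
      have h1 : (V₀'.comap (res N K)).index ∣ Nat.card (K ≃ₐ[ℚ] K) :=
        Subgroup.index_dvd_card _
      rw [hi', mul_one] at h1
      exact h1
    obtain ⟨w, q, h⟩ := sol (F := F) R hK H hj
    obtain ⟨n, hn, hn'⟩ := h _ (ker_le_comap V₀) (2 * s + 1) ⟨s, rfl⟩ hi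
    obtain ⟨n', hm, hm'⟩ := h _ (ker_le_comap V₀') 1 odd_one hi'
    have e1 : F.v k = w * u ^ n := by rw [← hn, v_comap, F.iso _ _ e₀]
    have e2 : F.v k' = w * u ^ n' := by rw [← hm, v_comap, F.iso _ _ e₀']
    have e3 : n = n' + s := by
      push_cast at hn' hm'
      omega
    rw [e1, e3, zpow_add, ← mul_assoc, ← e2, pow_succ, pow_mul, hw, zpow_natCast, mul_comm]

/-- **the abstract theorem** -/
theorem abs_main {S : Finset ℕ} (a : ℕ) :
    ∀ u : A, HJ F S a u → ∃ w : A, w ^ 2 ^ a = u ∧ HJ F S 0 w := by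
  induction a with
  | zero =>
    intro u h
    exact ⟨u, by rw [pow_zero, pow_one], h⟩
  | succ a ih =>
    intro u h
    obtain ⟨w, hw, h'⟩ := step h
    obtain ⟨w', hw', h''⟩ := ih w h'
    refine ⟨w', ?_, h''⟩
    rw [pow_succ, pow_mul, hw', hw]

theorem abs_two {S : Finset ℕ} (a : ℕ) (hF : ∀ (k : Type) [Field k] [NumberField k],
    TestField S k → 2 ^ a ∣ Module.finrank ℚ k → F.v k = 1) :
    F.v ℚ ^ 2 ^ a = 1 ∧ ∀ (k : Type) [Field k] [NumberField k], TestField S k →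
      F.v k = F.v ℚ ^ Module.finrank ℚ k := by
  obtain ⟨w, hw, h⟩ := abs_main (F := F) (S := S) a 1
    (fun k _ _ hk hd => by rw [hF k hk hd, one_pow])
  have h0 : ∀ (k : Type) [Field k] [NumberField k], TestField S k →
      F.v k = w ^ Module.finrank ℚ k := by
    intro k _ _ hk
    have h1 := h k hk (by rw [pow_zero]; exact one_dvd _)
    rwa [pow_zero, Nat.div_one] at h1
  have h1 : F.v ℚ = w := by
    have h2 := h0 ℚ (testField_rat S)
    rwa [Module.finrank_self, pow_one] at h2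
  rw [h1]
  exact ⟨hw, h0⟩

end abs

/-- the classes of the L-functions respect the relations -/
noncomputable def VF {E : Type} [Field E] [CharZero E] (D : MotiveData E) (m : ℤ) :
    ArtinFn (((E →+* ℂ) → ℂ → ℂˣ) ⧸ SS D m) where
  v k _ _ := VV D m k
  iso _ _ _ _ _ _ e := VV_iso e
  rel K _ _ _ _ _ _ h := VV_rel (IsAlgClosed.lift : K →ₐ[ℚ] ℂ) h

lemma exists_ne {E : Type} [Field E] [NumberField E] (D : MotiveData E) (m : ℤ)
    (F : Type) [Field F] [NumberField F] (hD : ∃ e : E, DeligneWith D F m e)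
    (hN : (m : ℝ) ≤ 1 + (D.w : ℝ) / 2 → ∃ ι : E →+* ℂ, ¬ HasLValue D ι F m 0) :
    ∃ e : E, e ≠ 0 ∧ DeligneWith D F m e := by
  obtain ⟨e, he⟩ := hD
  refine ⟨e, ?_, he⟩
  rintro rfl
  obtain ⟨δ, -, h2⟩ := he
  have h3 : ∃ ι : E →+* ℂ, ¬ HasLValue D ι F m 0 := by
    rcases le_or_gt (m : ℝ) (1 + (D.w : ℝ) / 2) with h4 | h4
    · exact hN h4
    · obtain ⟨ι⟩ : Nonempty (E →+* ℂ) := inferInstance
      exact ⟨ι, not_zero D ι h4⟩
  obtain ⟨ι, hι⟩ := h3
  apply hι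
  have h4 := h2 ι
  rwa [map_zero, zero_mul] at h4

lemma deligne_of_VV {E : Type} [Field E] [CharZero E] {D : MotiveData E} {m : ℤ} (k : Type)
    [Field k] [NumberField k] [IsTotallyReal k] (h : VV D m k = 1) :
    ∃ e : E, e ≠ 0 ∧ DeligneWith D k m e := by
  rw [VV, QuotientGroup.eq_one_iff] at h
  obtain ⟨e, he, h1⟩ := h
  refine ⟨e, he, sd k, sd_sq k, fun ι => ?_⟩
  obtain ⟨g, g1, g2, g3⟩ := h1 ι
  have h9 := nr_ne (D := D) (m := m) ι (Module.finrank ℚ k) (sqrt_ne (sd_sq k))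
  rw [pred_eq]
  refine ⟨fun s => g s * nr D m ι (Module.finrank ℚ k) (sd k),
    fun s hs => (g1 s hs).mul (MeromorphicAt.const _ s), fun s hs => ?_, g3.mul_const _⟩
  change HasProd _ (g s * nr D m ι (Module.finrank ℚ k) (sd k))
  rw [g2 s hs, LL_val, div_mul_cancel₀ _ h9]
  exact hasProd_euler D ι hs

/-- **test fields of a degree divisible by `2 ^ a`** -/
theorem main {E : Type} [Field E] [NumberField E] (D : MotiveData E) (m : ℤ) (a : ℕ)
    (S : Finset ℕ)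
    (hD : ∀ (F : Type) [Field F] [NumberField F], TestField S F → 2 ^ a ∣ Module.finrank ℚ F →
      ∃ e : E, DeligneWith D F m e)
    (hN : (m : ℝ) ≤ 1 + (D.w : ℝ) / 2 → ∀ (F : Type) [Field F] [NumberField F], TestField S F →
      2 ^ a ∣ Module.finrank ℚ F → ∃ ι : E →+* ℂ, ¬ HasLValue D ι F m 0) :
    (∀ (k₀ : Type) [Field k₀] [NumberField k₀], TestField S k₀ → Odd (Module.finrank ℚ k₀) →
      (∃ e : E, DeligneWith D k₀ m e) →
      ((m : ℝ) ≤ 1 + (D.w : ℝ) / 2 → ∃ ι : E →+* ℂ, ¬ HasLValue D ι k₀ m 0) →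
        ∀ (k : Type) [Field k] [NumberField k], TestField S k →
          ∃ e : E, e ≠ 0 ∧ DeligneWith D k m e) ∧
    ((∀ ι : E →+* ℂ, ∃ f : ℂ → ℂ, (∀ s : ℂ, (m : ℝ) ≤ s.re → MeromorphicAt f s) ∧
        ∀ s : ℂ, 1 + (D.w : ℝ) / 2 < s.re → HasProd (fun v => eulerFactor D ι ℚ v s) (f s)) →
      ∃ (δ : E) (z : (E →+* ℂ) → ℂ), δ ≠ 0 ∧
        (∀ ι, HasLValue D ι ℚ m (z ι) ∧ z ι ^ 2 ^ a
          = ι δ * ((2 * Real.pi * Complex.I) ^ (m * D.n) * D.period ι m) ^ 2 ^ a) ∧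
        ∀ (k : Type) [Field k] [NumberField k], TestField S k →
          ∃ (e : E) (d : ℂ), e ≠ 0 ∧ d ^ 2 = (discr k : ℂ) ∧ ∀ ι : E →+* ℂ,
            HasLValue D ι k m (ι e * z ι ^ Module.finrank ℚ k * d ^ D.n)) := by
  have hV : ∀ (F : Type) [Field F] [NumberField F], TestField S F →
      2 ^ a ∣ Module.finrank ℚ F → (VF D m).v F = 1 := by
    intro F _ _ hF hd
    have := hF.1
    obtain ⟨e, he, he'⟩ := exists_ne D m F (hD F hF hd) (fun h => hN h F hF hd)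
    exact VV_of_deligne F he he'
  obtain ⟨h1, h2⟩ := abs_two a hV
  constructor
  · intro k₀ _ _ hk₀ hodd hex hex' k _ _ hk
    have := hk₀.1
    have := hk.1
    obtain ⟨e, he, he'⟩ := exists_ne D m k₀ hex hex'
    have h3 : (VF D m).v k₀ = 1 := VV_of_deligne k₀ he he'
    rw [h2 k₀ hk₀] at h3
    have h4 : (VF D m).v ℚ = 1 := by
      have h5 : orderOf ((VF D m).v ℚ) ∣ 2 ^ a := orderOf_dvd_of_pow_eq_one h1
      have h6 : orderOf ((VF D m).v ℚ) ∣ Module.finrank ℚ k₀ := orderOf_dvd_of_pow_eq_one h3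
      have h7 : (2 ^ a).Coprime (Module.finrank ℚ k₀) := (Nat.coprime_two_left.mpr hodd).pow_left a
      exact orderOf_eq_one_iff.mp (Nat.eq_one_of_dvd_coprimes h7 h5 h6)
    refine deligne_of_VV k ?_
    have h5 := h2 k hk
    rw [h4, one_pow] at h5
    exact h5
  · intro hM
    obtain ⟨δ, r, hδ, hr, hr'⟩ := root_of (pow_ne_zero a two_ne_zero) hM h1
    -- the square root of the discriminant of `ℚ`
    obtain ⟨u, hu, hu'⟩ := sq_ratio (δ := sd ℚ) (δ' := 1) (by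
      rw [sd_sq, Rat.numberField_discr]
      norm_num)
    rw [mul_one] at hu'
    have hnr : ∀ ι : E →+* ℂ, nr D m ι 1 (sd ℚ)
        = (u : ℂ) ^ D.n * ((2 * Real.pi * Complex.I) ^ (m * D.n) * D.period ι m) := by
      intro ι
      rw [nr, hu', mul_one, pow_one]
      ring
    have huE : ((u : ℚ) : E) ≠ 0 := by exact_mod_cast hu
    refine ⟨δ * ((u : E) ^ D.n) ^ 2 ^ a, fun ι => r ι * nr D m ι 1 (sd ℚ),
      mul_ne_zero hδ (pow_ne_zero _ (pow_ne_zero _ huE)), fun ι => ⟨hr' ι, ?_⟩,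
      fun k _ _ hk => ?_⟩
    · change (r ι * nr D m ι 1 (sd ℚ)) ^ 2 ^ a = _
      rw [mul_pow, hr, hnr, mul_pow, map_mul, map_pow, map_pow, map_ratCast]
      ring
    · have := hk.1
      obtain ⟨e, d, he, hd, h3⟩ := value_of (D := D) (m := m) k rfl (h2 k hk) hr'
      refine ⟨e * (((u : E) ^ D.n) ^ Module.finrank ℚ k)⁻¹, d,
        mul_ne_zero he (inv_ne_zero (pow_ne_zero _ (pow_ne_zero _ huE))), hd, fun ι => ?_⟩
      convert h3 ι using 1
      beta_reduce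
      have huC : (u : ℂ) ≠ 0 := by exact_mod_cast hu
      rw [hnr, map_mul, map_inv₀, map_pow, map_pow, map_ratCast, nr]
      have h4 : ((2 * Real.pi * Complex.I : ℂ)) ^ (m * (D.n * Module.finrank ℚ k : ℕ))
          = ((2 * Real.pi * Complex.I) ^ (m * D.n)) ^ Module.finrank ℚ k := by
        rw [← zpow_natCast, ← zpow_mul]
        congr 1
        push_cast
        ring
      rw [h4]
      have h5 : ((u : ℂ) ^ D.n) ^ Module.finrank ℚ k ≠ 0 := pow_ne_zero _ (pow_ne_zero _ huC)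
      rw [mul_pow, mul_pow, mul_pow]
      field_simp

end Pool.Agent.K9h67.EV
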